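import Pool.Agent.H10.SU.Flow

/-! Arcs on the discrete circle. -/

set_option autoImplicit false

namespace Pool.H10.SU

open Finset

variable {M : ℕ}

/-- number of times the interval `[s, s + m)` covers the residue `x` -/
noncomputable def arc (s : ℤ) (m : ℕ) (x : ZMod M) : ℝ :=
  (((Finset.Ico s (s + m)).filter (fun j : ℤ => (j : ZMod M) = x)).card : ℝ)

lemma arc_shift (s : ℤ) (m : ℕ) (x : ZMod M) : arc (s + 1) m (x + 1) = arc s m x := by
  unfold arc
  congr 1
  refine Finset.card_bij' (fun j _ => j - 1) (fun j _ => j + 1) ?_ ?_ ?_ ?_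
  · intro j hj
    rw [Finset.mem_filter, Finset.mem_Ico] at hj ⊢
    refine ⟨⟨by omega, by omega⟩, ?_⟩
    have := hj.2
    push_cast
    rw [this]; ring
  · intro j hj
    rw [Finset.mem_filter, Finset.mem_Ico] at hj ⊢
    refine ⟨⟨by omega, by omega⟩, ?_⟩
    have := hj.2
    push_cast
    rw [this]
  · intro j _; simp
  · intro j _; simp

variable [NeZero M]

lemma arc_sum (s : ℤ) (m : ℕ) : ∑ x : ZMod M, arc s m x = m := by
  unfold arc
  rw [← Nat.cast_sum]
  congr 1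
  have h := Finset.card_eq_sum_card_fiberwise (s := Finset.Ico s (s + m)) (t := (Finset.univ : Finset (ZMod M)))
    (f := fun j : ℤ => (j : ZMod M)) (fun _ _ => Finset.mem_coe.2 (Finset.mem_univ _))
  rw [← h, Int.card_Ico]
  simp

lemma arc_le_one (s : ℤ) (m : ℕ) (hm : m ≤ M) (x : ZMod M) : arc s m x ≤ 1 := by
  unfold arc
  have : ((Finset.Ico s (s + m)).filter (fun j : ℤ => (j : ZMod M) = x)).card ≤ 1 := by
    rw [Finset.card_le_one]
    intro a ha b hb
    rw [Finset.mem_filter, Finset.mem_Ico] at ha hb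
    have h1 : ((a : ℤ) : ZMod M) = ((b : ℤ) : ZMod M) := ha.2.trans hb.2.symm
    rw [ZMod.intCast_eq_intCast_iff_dvd_sub] at h1
    obtain ⟨c, hc⟩ := h1
    have hc0 : c = 0 := by
      by_contra hne
      have hM : (0 : ℤ) < M := by exact_mod_cast NeZero.pos M
      have hm' : (m : ℤ) ≤ M := by exact_mod_cast hm
      rcases lt_or_gt_of_ne hne with h | h
      · have : (M : ℤ) * c ≤ -M := by nlinarith
        omega
      · have : (M : ℤ) ≤ M * c := by nlinarith
        omega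
    rw [hc0] at hc
    omega
  exact_mod_cast this

lemma one_le_arc (s : ℤ) (m : ℕ) (hm : M ≤ m) (x : ZMod M) : 1 ≤ arc s m x := by
  unfold arc
  have : 1 ≤ ((Finset.Ico s (s + m)).filter (fun j : ℤ => (j : ZMod M) = x)).card := by
    rw [Nat.one_le_iff_ne_zero, Finset.card_ne_zero]
    refine ⟨s + ((x - (s : ZMod M)).val : ℤ), ?_⟩
    rw [Finset.mem_filter, Finset.mem_Ico]
    have h1 := ZMod.val_lt (x - (s : ZMod M))
    refine ⟨⟨by omega, by omega⟩, ?_⟩
    push_cast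
    rw [ZMod.natCast_zmod_val]; ring
  exact_mod_cast this

lemma arc_abs (s : ℤ) (m : ℕ) : ∑ x : ZMod M, |1 - arc s m x| = |(M : ℝ) - m| := by
  have hc : ∑ _x : ZMod M, (1 : ℝ) = M := by
    rw [Finset.sum_const, Finset.card_univ, ZMod.card, nsmul_eq_mul, mul_one]
  rcases le_total m M with h | h
  · have h1 : ∀ x : ZMod M, |1 - arc s m x| = 1 - arc s m x := fun x =>
      abs_of_nonneg (sub_nonneg.2 (arc_le_one s m h x))
    simp only [h1]
    rw [Finset.sum_sub_distrib, arc_sum, hc, abs_of_nonneg]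
    have : (m : ℝ) ≤ M := by exact_mod_cast h
    linarith
  · have h1 : ∀ x : ZMod M, |1 - arc s m x| = arc s m x - 1 := fun x => by
      rw [abs_of_nonpos (sub_nonpos.2 (one_le_arc s m h x))]; ring
    simp only [h1]
    rw [Finset.sum_sub_distrib, arc_sum, hc, abs_of_nonpos]
    · ring
    · have : (M : ℝ) ≤ m := by exact_mod_cast h
      linarith

lemma shiftN (s : ℤ) (m : ℕ) (n : ℕ) : ∃ Fn : ZMod M → ℝ,
    (∀ x, Fn (x + 1) - Fn x = arc (s + n) m x - arc s m x) ∧ ∑ x, |Fn x| ≤ n * |(M : ℝ) - m| := by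
  induction n with
  | zero => exact ⟨fun _ => 0, by simp, by simp⟩
  | succ n ih =>
    obtain ⟨Fn, h1, h2⟩ := ih
    refine ⟨fun x => Fn x + (1 - arc (s + n + 1) m x), ?_, ?_⟩
    · intro x
      have e1 := h1 x
      have e2 := arc_shift (s + n) m x
      have e3 : s + ((n + 1 : ℕ) : ℤ) = s + n + 1 := by push_cast; ring
      rw [e3]
      linarith
    · have e1 := arc_abs (M := M) (s + n + 1) m
      calc ∑ x, |Fn x + (1 - arc (s + n + 1) m x)| ≤ ∑ x, (|Fn x| + |1 - arc (s + n + 1) m x|) :=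
            Finset.sum_le_sum fun x _ => abs_add_le _ _
        _ = ∑ x, |Fn x| + |(M : ℝ) - m| := by rw [Finset.sum_add_distrib, e1]
        _ ≤ ((n + 1 : ℕ) : ℝ) * |(M : ℝ) - m| := by push_cast; linarith

lemma shiftF (s s' : ℤ) (m : ℕ) : ∃ Fn : ZMod M → ℝ,
    (∀ x, Fn (x + 1) - Fn x = arc s' m x - arc s m x) ∧ ∑ x, |Fn x| ≤ |((s' - s : ℤ) : ℝ)| * |(M : ℝ) - m| := by
  rcases le_total s s' with h | h
  · obtain ⟨n, hn⟩ := Int.eq_ofNat_of_zero_le (sub_nonneg.2 h)
    obtain ⟨Fn, h1, h2⟩ := shiftN (M := M) s m n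
    have e : s + n = s' := by omega
    rw [e] at h1
    refine ⟨Fn, h1, ?_⟩
    rw [hn]
    simpa using h2
  · obtain ⟨n, hn⟩ := Int.eq_ofNat_of_zero_le (sub_nonneg.2 h)
    obtain ⟨Fn, h1, h2⟩ := shiftN (M := M) s' m n
    have e : s' + n = s := by omega
    rw [e] at h1
    refine ⟨fun x => -Fn x, fun x => by have := h1 x; linarith, ?_⟩
    have e2 : s' - s = -(n : ℤ) := by omega
    rw [e2]
    simp only [abs_neg]
    push_cast
    rw [abs_neg, Nat.abs_cast]
    exact h2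

/-- arcs depending on the second variable -/
lemma arcF (S : ZMod M → ℤ) (m : ℕ) : ∃ F : ZMod M × ZMod M → ℝ,
    (∀ z, arc (S (z + (0, 1)).2) m (z + (0, 1)).1 - arc (S z.2) m z.1 = F (z + (1, 0)) - F z) ∧
    ∑ z, |F z| ≤ (∑ y, |((S (y + 1) - S y : ℤ) : ℝ)|) * |(M : ℝ) - m| := by
  choose Fn h1 h2 using fun y => shiftF (M := M) (S y) (S (y + 1)) m
  refine ⟨fun z => Fn z.2 z.1, ?_, ?_⟩
  · intro z
    have := h1 z.2 z.1
    simp only [Prod.fst_add, Prod.snd_add, add_zero]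
    linarith
  · rw [Fintype.sum_prod_type_right, Finset.sum_mul]
    exact Finset.sum_le_sum fun y _ => h2 y

/-- arcs depending on the first variable -/
lemma arcK (S : ZMod M → ℤ) (m : ℕ) : ∃ F : ZMod M × ZMod M → ℝ,
    (∀ z, arc (S (z + (1, 0)).1) m (z + (1, 0)).2 - arc (S z.1) m z.2 = F (z + (0, 1)) - F z) ∧
    ∑ z, |F z| ≤ (∑ y, |((S (y + 1) - S y : ℤ) : ℝ)|) * |(M : ℝ) - m| := by
  choose Fn h1 h2 using fun y => shiftF (M := M) (S y) (S (y + 1)) m
  refine ⟨fun z => Fn z.1 z.2, ?_, ?_⟩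
  · intro z
    have := h1 z.1 z.2
    simp only [Prod.fst_add, Prod.snd_add, add_zero]
    linarith
  · rw [Fintype.sum_prod_type, Finset.sum_mul]
    exact Finset.sum_le_sum fun y _ => h2 y

lemma sum_val {α : Type} [AddCommMonoid α] (φ : ℕ → α) : ∑ w : ZMod M, φ w.val = ∑ k ∈ range M, φ k := by
  symm
  refine Finset.sum_bij' (fun (k : ℕ) _ => (k : ZMod M)) (fun (w : ZMod M) _ => w.val) ?_ ?_ ?_ ?_ ?_
  · intro k _; exact Finset.mem_univ _
  · intro w _; exact Finset.mem_range.2 (ZMod.val_lt w)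
  · intro k hk; exact ZMod.val_cast_of_lt (Finset.mem_range.1 hk)
  · intro w _; exact ZMod.natCast_zmod_val w
  · intro k hk; rw [ZMod.val_cast_of_lt (Finset.mem_range.1 hk)]

lemma val_succ (w : ZMod M) : (w + 1).val = (w.val + 1) % M := by
  have h : w + 1 = ((w.val + 1 : ℕ) : ZMod M) := by push_cast; rw [ZMod.natCast_zmod_val]
  rw [h, ZMod.val_natCast]

/-- total variation of a rounded linear function around the circle -/
lemma tv (A τ : ℝ) (k0 : ℤ) :
    ∑ y : ZMod M, |(((⌈A - ((y + 1 - (k0 : ZMod M)).val : ℝ) * τ⌉ + 1) - (⌈A - ((y - (k0 : ZMod M)).val : ℝ) * τ⌉ + 1) : ℤ) : ℝ)|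
      ≤ 2 * (M * |τ| + 1) := by
  set G : ℕ → ℤ := fun k => ⌈A - (k : ℝ) * τ⌉ with hG
  have hM := NeZero.pos M
  have e1 : ∑ y : ZMod M, |(((⌈A - ((y + 1 - (k0 : ZMod M)).val : ℝ) * τ⌉ + 1) - (⌈A - ((y - (k0 : ZMod M)).val : ℝ) * τ⌉ + 1) : ℤ) : ℝ)|
      = ∑ w : ZMod M, |((G ((w.val + 1) % M) - G w.val : ℤ) : ℝ)| := by
    rw [← Equiv.sum_comp (Equiv.subRight (k0 : ZMod M)) (fun w : ZMod M => |((G ((w.val + 1) % M) - G w.val : ℤ) : ℝ)|)]
    apply Finset.sum_congr rfl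
    intro y _
    simp only [Equiv.subRight_apply]
    rw [← val_succ]
    have : y + 1 - (k0 : ZMod M) = y - (k0 : ZMod M) + 1 := by ring
    rw [this]
    congr 2
    rw [hG]; ring
  rw [e1, sum_val (fun k => |((G ((k + 1) % M) - G k : ℤ) : ℝ)|)]
  obtain ⟨n, hn⟩ : ∃ n, M = n + 1 := ⟨M - 1, by omega⟩
  rw [hn, Finset.sum_range_succ]
  have e2 : ∑ k ∈ range n, |((G ((k + 1) % (n + 1)) - G k : ℤ) : ℝ)| = ∑ k ∈ range n, |((G (k + 1) - G k : ℤ) : ℝ)| := by
    apply Finset.sum_congr rfl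
    intro k hk
    rw [Nat.mod_eq_of_lt (by have := Finset.mem_range.1 hk; omega)]
  rw [e2, Nat.mod_self]
  have e3 : ∑ k ∈ range n, |((G (k + 1) - G k : ℤ) : ℝ)| = |((G n - G 0 : ℤ) : ℝ)| := by
    rcases le_total 0 τ with hτ | hτ
    · have hmono : ∀ k, G (k + 1) ≤ G k := by
        intro k
        apply Int.ceil_le_ceil
        push_cast; nlinarith
      have h1 : ∀ k, |((G (k + 1) - G k : ℤ) : ℝ)| = (G k : ℝ) - G (k + 1) := by
        intro k
        rw [abs_of_nonpos (by have := hmono k; exact_mod_cast (by omega : G (k + 1) - G k ≤ 0))]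
        push_cast; ring
      simp only [h1]
      have h2 : ∑ k ∈ range n, ((G k : ℝ) - G (k + 1)) = G 0 - G n := Finset.sum_range_sub' (fun k => (G k : ℝ)) n
      rw [h2]
      have h3 : G n ≤ G 0 := antitone_nat_of_succ_le hmono (Nat.zero_le n)
      rw [abs_of_nonpos (by exact_mod_cast (by omega : G n - G 0 ≤ 0))]
      push_cast; ring
    · have hmono : ∀ k, G k ≤ G (k + 1) := by
        intro k
        apply Int.ceil_le_ceil
        push_cast; nlinarith
      have h1 : ∀ k, |((G (k + 1) - G k : ℤ) : ℝ)| = (G (k + 1) : ℝ) - G k := by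
        intro k
        rw [abs_of_nonneg (by have := hmono k; exact_mod_cast (by omega : 0 ≤ G (k + 1) - G k))]
        push_cast; ring
      simp only [h1]
      have h2 : ∑ k ∈ range n, ((G (k + 1) : ℝ) - G k) = G n - G 0 := Finset.sum_range_sub (fun k => (G k : ℝ)) n
      rw [h2]
      have h3 : G 0 ≤ G n := monotone_nat_of_le_succ hmono (Nat.zero_le n)
      rw [abs_of_nonneg (by exact_mod_cast (by omega : 0 ≤ G n - G 0))]
      push_cast; ring
  rw [e3]
  have e4 : |((G 0 - G n : ℤ) : ℝ)| = |((G n - G 0 : ℤ) : ℝ)| := by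
    push_cast; exact abs_sub_comm _ _
  rw [e4]
  have h5 : |((G n - G 0 : ℤ) : ℝ)| ≤ n * |τ| + 1 := by
    have a1 := Int.le_ceil (A - (n : ℝ) * τ)
    have a2 := Int.ceil_lt_add_one (A - (n : ℝ) * τ)
    have a3 := Int.le_ceil (A - ((0 : ℕ) : ℝ) * τ)
    have a4 := Int.ceil_lt_add_one (A - ((0 : ℕ) : ℝ) * τ)
    have a5 : |(n : ℝ) * τ| = n * |τ| := by rw [abs_mul, Nat.abs_cast]
    have a6 := abs_le.1 a5.le
    push_cast at a3 a4 ⊢
    rw [hG]
    push_cast
    rw [abs_le]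
    constructor <;> linarith [a6.1, a6.2]
  have h6 : (n : ℝ) * |τ| ≤ (n + 1) * |τ| := by nlinarith [abs_nonneg τ]
  have h7 : ((n + 1 : ℕ) : ℝ) = n + 1 := by push_cast; ring
  rw [h7]
  linarith

end Pool.H10.SU
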