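import Pool.Agent.H10.SU.Sample

/-! The sampling functions of a packing, added up, and the limit of fine grids. -/

set_option autoImplicit false

namespace Pool.H10.SU

open Finset

section

variable {M : ℕ} [NeZero M]

lemma mean_le (g : ZMod M × ZMod M → ℝ) (c : ℝ) (h : ∑ z, g z ≤ c * (M : ℝ) ^ 2) : mean g ≤ c := by
  have hM : (0 : ℝ) < (M : ℝ) ^ 2 := by
    have := NeZero.pos M
    positivity
  unfold mean
  rw [div_le_iff₀ hM]; exact h

lemma le_mean (g : ZMod M × ZMod M → ℝ) (c : ℝ) (h : c * (M : ℝ) ^ 2 ≤ ∑ z, g z) : c ≤ mean g := by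
  have hM : (0 : ℝ) < (M : ℝ) ^ 2 := by
    have := NeZero.pos M
    positivity
  unfold mean
  rw [le_div_iff₀ hM]; exact h

open Classical in
lemma NN_sum {ι : Type} [Fintype ι] (Kb : ℕ) (S : ι → Set (ℝ × ℝ)) (hd : ∀ i j, i ≠ j → Disjoint (S i) (S j))
    (z : ZMod M × ZMod M) : ∑ i, NN M Kb (S i) z ≤ (Kb : ℝ) ^ 2 := by
  have h1 : ∑ i, NN M Kb (S i) z = ((∑ i, ((Finset.range Kb ×ˢ Finset.range Kb).filter
    (fun l : ℕ × ℕ => ((z.1.val : ℝ) / M + l.1, (z.2.val : ℝ) / M + l.2) ∈ S i)).card : ℕ) : ℝ) := by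
    unfold NN; push_cast; rfl
  rw [h1, ← Finset.card_biUnion]
  · have h2 : (((univ : Finset ι).biUnion fun i => ((Finset.range Kb ×ˢ Finset.range Kb).filter
      (fun l : ℕ × ℕ => ((z.1.val : ℝ) / M + l.1, (z.2.val : ℝ) / M + l.2) ∈ S i)))).card
        ≤ (Finset.range Kb ×ˢ Finset.range Kb).card := by
      apply Finset.card_le_card
      intro l hl
      simp only [Finset.mem_biUnion, Finset.mem_filter] at hl
      obtain ⟨i, _, h, _⟩ := hl
      exact h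
    rw [Finset.card_product, Finset.card_range] at h2
    calc _ ≤ ((Kb * Kb : ℕ) : ℝ) := by exact_mod_cast h2
      _ = _ := by push_cast; ring
  · intro i _ j _ hij
    rw [Function.onFun, Finset.disjoint_left]
    intro l hl hl'
    simp only [Finset.mem_filter] at hl hl'
    exact (Set.disjoint_left.1 (hd i j hij)) hl.2 hl'.2

end

/-- the bound at scale `M` -/
theorem atM {ι : Type} [Fintype ι] (cx cy h τ : ι → ℝ) (hh0 : ∀ i, 0 < h i) (hτ : ∀ i, |τ i| ≤ 1 / 10)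
    (Kb : ℕ) (S : ι → Set (ℝ × ℝ))
    (hS : ∀ i, ∀ X Y : ℝ, |X - cx i + τ i * (Y - cy i)| < h i → |Y - cy i - τ i * (X - cx i)| < h i →
      (X, Y) ∈ S i)
    (hbox : ∀ i, ∀ p ∈ S i, (0 < p.1 ∧ p.1 < Kb) ∧ (0 < p.2 ∧ p.2 < Kb))
    (hd : ∀ i j, i ≠ j → Disjoint (S i) (S j)) (j : ℤ)
    (hj : (Fintype.card ι : ℤ) = (Kb : ℤ) ^ 2 + 2 * j + 1) (k : ℝ) (hk0 : 0 < k) (hk1 : k ≤ 1)
    (D : ℝ) (hD : D = (Kb : ℝ) ^ 2 + Fintype.card ι - 4 * ∑ i, h i) (M : ℕ) (hM : 0 < M) (u : ℝ)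
    (hu : u = 1 / (M : ℝ)) :
    max ((1 - D) / 2 - 2 * Fintype.card ι * u) 0 *
      max ((1 - D) / 2 - 2 * Fintype.card ι * u - ∑ i, 5 * (6 * |τ i| + 2 * u) ^ 2) 0 ≤
    (∑ i, (4 * (|τ i| + u) * (|1 - 2 * h i| + 2 * u) + 5 * (6 * |τ i| + 2 * u) ^ 2))
      + 8 * k * (D + 4 * Fintype.card ι * u + ∑ i, 5 * (6 * |τ i| + 2 * u) ^ 2)
      + 128 / k * (∑ i, (4 * (|τ i| + u) * (|1 - 2 * h i| + 2 * u) + 5 * (6 * |τ i| + 2 * u) ^ 2)) := by
  haveI : NeZero M := ⟨hM.ne'⟩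
  have hMr : (0 : ℝ) < M := by exact_mod_cast hM
  have hMu : (M : ℝ) * u = 1 := by rw [hu]; field_simp
  choose P Q F K C hPi hQi hCi hC0 r1 r2 hF hK hC hP hQ hPQ using
    fun i => sample (M := M) (cx i) (cy i) (h i) (τ i) (hh0 i) (hτ i) Kb (S i) (hS i) (hbox i)
  set f : ZMod M × ZMod M → ℝ := fun z => ∑ i, P i z - (Kb : ℝ) ^ 2 - j with hf
  set g : ZMod M × ZMod M → ℝ := fun z => ∑ i, Q i z - (Kb : ℝ) ^ 2 - j - ∑ i, C i z with hg
  set FF : ZMod M × ZMod M → ℝ := fun z => ∑ i, F i z with hFF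
  set KK : ZMod M × ZMod M → ℝ := fun z => ∑ i, K i z with hKK
  set RR : ZMod M × ZMod M → ℝ := fun z => - ∑ i, C i z with hRR
  have hjr : (Fintype.card ι : ℝ) = (Kb : ℝ) ^ 2 + 2 * j + 1 := by exact_mod_cast hj
  have hfg : ∀ z, f z + g z ≤ 1 := by
    intro z
    have e1 : f z + g z = ∑ i, (P i z + Q i z - C i z) - 2 * (Kb : ℝ) ^ 2 - 2 * j := by
      simp only [hf, hg, Finset.sum_add_distrib, Finset.sum_sub_distrib]; ring
    have e2 : ∑ i, (P i z + Q i z - C i z) ≤ ∑ i, (1 + NN M Kb (S i) z) := by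
      apply Finset.sum_le_sum
      intro i _
      have := hPQ i z
      linarith
    have e3 : ∑ i : ι, (1 + NN M Kb (S i) z) = Fintype.card ι + ∑ i, NN M Kb (S i) z := by
      rw [Finset.sum_add_distrib, Finset.sum_const, nsmul_eq_mul, mul_one, Finset.card_univ]
    have e4 := NN_sum Kb S hd z
    rw [e1]
    linarith
  have hint : ∀ z, (∃ a : ℤ, f z = a) ∧ (∃ b : ℤ, g z = b) := by
    intro z
    choose p hp using fun i => hPi i z
    choose q hq using fun i => hQi i z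
    choose c hc using fun i => hCi i z
    constructor
    · refine ⟨∑ i, p i - (Kb : ℤ) ^ 2 - j, ?_⟩
      simp only [hf]
      push_cast
      rw [Finset.sum_congr rfl (fun i _ => hp i)]
    · refine ⟨∑ i, q i - (Kb : ℤ) ^ 2 - j - ∑ i, c i, ?_⟩
      simp only [hg]
      push_cast
      rw [Finset.sum_congr rfl (fun i _ => hq i), Finset.sum_congr rfl (fun i _ => hc i)]
  have h0 : ∀ z, max (f z) 0 * max (g z) 0 = 0 := by
    intro z
    obtain ⟨⟨a, ha⟩, b, hb⟩ := hint z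
    have h1 := hfg z
    rw [ha, hb] at h1 ⊢
    have h2 : a + b ≤ 1 := by exact_mod_cast h1
    rcases le_or_gt a 0 with h3 | h3
    · have : (a : ℝ) ≤ 0 := by exact_mod_cast h3
      rw [max_eq_right this, zero_mul]
    · have : (b : ℝ) ≤ 0 := by
        have : b ≤ 0 := by omega
        exact_mod_cast this
      rw [max_eq_right this, mul_zero]
  have R1 : ∀ z, f (z + (0, 1)) - f z = FF (z + (1, 0)) - FF z := by
    intro z
    simp only [hf, hFF]
    rw [← Finset.sum_sub_distrib, ← Finset.sum_congr rfl (fun i _ => r1 i z), Finset.sum_sub_distrib]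
    ring
  have R2 : ∀ z, g (z + (1, 0)) - g z = (KK (z + (0, 1)) - KK z) + (RR (z + (1, 0)) - RR z) := by
    intro z
    simp only [hg, hKK, hRR]
    have : ∑ i, K i (z + (0, 1)) - ∑ i, K i z = ∑ i, Q i (z + (1, 0)) - ∑ i, Q i z := by
      rw [← Finset.sum_sub_distrib, ← Finset.sum_congr rfl (fun i _ => r2 i z), Finset.sum_sub_distrib]
    rw [this]
    ring
  have main := flow1 f g FF KK RR k hk0 hk1 hfg h0 R1 R2
  -- bounds for the means
  set cc : ℝ := ∑ i, 5 * (6 * |τ i| + 2 * u) ^ 2 with hcc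
  set ee : ℝ := ∑ i, (4 * (|τ i| + u) * (|1 - 2 * h i| + 2 * u) + 5 * (6 * |τ i| + 2 * u) ^ 2) with hee
  have u1 : (M : ℝ) ^ 2 * u ^ 2 = 1 := by
    rw [← mul_pow, hMu, one_pow]
  have cbd : ∀ i, ∑ z, C i z ≤ 5 * (6 * |τ i| + 2 * u) ^ 2 * (M : ℝ) ^ 2 := by
    intro i
    refine (hC i).trans (le_of_eq ?_)
    have : (6 * |τ i| * M + 2) = (6 * |τ i| + 2 * u) * M := by linear_combination -2 * hMu
    rw [this]; ring
  have csum : ∑ z, ∑ i, C i z ≤ cc * (M : ℝ) ^ 2 := by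
    rw [Finset.sum_comm, hcc, Finset.sum_mul]
    exact Finset.sum_le_sum fun i _ => cbd i
  have mf : (1 - D) / 2 - 2 * Fintype.card ι * u ≤ mean f := by
    apply le_mean
    have e1 : ∑ z, f z = ∑ i, ∑ z, P i z - ((Kb : ℝ) ^ 2 + j) * (M : ℝ) ^ 2 := by
      simp only [hf]
      rw [Finset.sum_sub_distrib, Finset.sum_sub_distrib, Finset.sum_comm, Finset.sum_const, Finset.sum_const, cardG,
        nsmul_eq_mul, nsmul_eq_mul]
      push_cast; ring
    have e2 : ∑ i : ι, (M : ℝ) * (2 * h i * M - 2) ≤ ∑ i, ∑ z, P i z := Finset.sum_le_sum fun i _ => hP i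
    have e3 : ∑ i : ι, (M : ℝ) * (2 * h i * M - 2) = (M : ℝ) ^ 2 * (2 * ∑ i, h i) - 2 * M * Fintype.card ι := by
      rw [← Finset.mul_sum, Finset.sum_sub_distrib, Finset.sum_const, nsmul_eq_mul, Finset.card_univ,
        ← Finset.sum_mul, ← Finset.mul_sum]
      ring
    rw [e1]
    have e4 : (M : ℝ) * u * M = M := by rw [hMu, one_mul]
    have e5 : ((1 - D) / 2 - 2 * Fintype.card ι * u) * (M : ℝ) ^ 2
        = (M : ℝ) ^ 2 * (2 * ∑ i, h i) - 2 * M * Fintype.card ι - ((Kb : ℝ) ^ 2 + j) * (M : ℝ) ^ 2 := by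
      rw [hD]
      linear_combination (-(1 / 2 : ℝ) * (M : ℝ) ^ 2) * hjr - 2 * (Fintype.card ι : ℝ) * e4
    linarith
  have mg : (1 - D) / 2 - 2 * Fintype.card ι * u - cc ≤ mean g := by
    apply le_mean
    have e1 : ∑ z, g z = ∑ i, ∑ z, Q i z - ((Kb : ℝ) ^ 2 + j) * (M : ℝ) ^ 2 - ∑ z, ∑ i, C i z := by
      simp only [hg]
      rw [Finset.sum_sub_distrib, Finset.sum_sub_distrib, Finset.sum_sub_distrib,
        Finset.sum_comm, Finset.sum_const, Finset.sum_const, cardG,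
        nsmul_eq_mul, nsmul_eq_mul]
      push_cast; ring
    have e2 : ∑ i : ι, (M : ℝ) * (2 * h i * M - 2) ≤ ∑ i, ∑ z, Q i z := Finset.sum_le_sum fun i _ => hQ i
    have e3 : ∑ i : ι, (M : ℝ) * (2 * h i * M - 2) = (M : ℝ) ^ 2 * (2 * ∑ i, h i) - 2 * M * Fintype.card ι := by
      rw [← Finset.mul_sum, Finset.sum_sub_distrib, Finset.sum_const, nsmul_eq_mul, Finset.card_univ,
        ← Finset.sum_mul, ← Finset.mul_sum]
      ring
    rw [e1]
    have e4 : (M : ℝ) * u * M = M := by rw [hMu, one_mul]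
    have e5 : ((1 - D) / 2 - 2 * Fintype.card ι * u) * (M : ℝ) ^ 2
        = (M : ℝ) ^ 2 * (2 * ∑ i, h i) - 2 * M * Fintype.card ι - ((Kb : ℝ) ^ 2 + j) * (M : ℝ) ^ 2 := by
      rw [hD]
      linear_combination (-(1 / 2 : ℝ) * (M : ℝ) ^ 2) * hjr - 2 * (Fintype.card ι : ℝ) * e4
    have e6 : ((1 - D) / 2 - 2 * Fintype.card ι * u - cc) * (M : ℝ) ^ 2
        = ((1 - D) / 2 - 2 * Fintype.card ι * u) * (M : ℝ) ^ 2 - cc * (M : ℝ) ^ 2 := by ring
    rw [e6]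
    linarith
  have mh : mean (hh FF KK RR) ≤ ee := by
    apply mean_le
    have e1 : ∀ z, hh FF KK RR z ≤ ∑ i, (|F i z| + |K i z| + C i z) := by
      intro z
      unfold hh
      simp only [hFF, hKK, hRR]
      rw [abs_neg, Finset.sum_add_distrib, Finset.sum_add_distrib]
      have a1 := Finset.abs_sum_le_sum_abs (fun i => F i z) univ
      have a2 := Finset.abs_sum_le_sum_abs (fun i => K i z) univ
      have a3 : |∑ i, C i z| = ∑ i, C i z := abs_of_nonneg (Finset.sum_nonneg fun i _ => hC0 i z)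
      linarith
    refine (Finset.sum_le_sum fun z _ => e1 z).trans ?_
    rw [Finset.sum_comm, hee, Finset.sum_mul]
    apply Finset.sum_le_sum
    intro i _
    rw [Finset.sum_add_distrib, Finset.sum_add_distrib]
    have b1 := hF i
    have b2 := hK i
    have b3 := cbd i
    have b4 : 2 * (2 * (M * |τ i| + 1) * (M * |1 - 2 * h i| + 2))
        = 4 * (|τ i| + u) * (|1 - 2 * h i| + 2 * u) * (M : ℝ) ^ 2 := by
      have c1 : (M * |τ i| + 1) = (|τ i| + u) * M := by linear_combination - hMu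
      have c2 : (M * |1 - 2 * h i| + 2) = (|1 - 2 * h i| + 2 * u) * M := by linear_combination - 2 * hMu
      rw [c1, c2]; ring
    have b5 : (4 * (|τ i| + u) * (|1 - 2 * h i| + 2 * u) + 5 * (6 * |τ i| + 2 * u) ^ 2) * (M : ℝ) ^ 2
        = 4 * (|τ i| + u) * (|1 - 2 * h i| + 2 * u) * (M : ℝ) ^ 2 + 5 * (6 * |τ i| + 2 * u) ^ 2 * (M : ℝ) ^ 2 := by
      ring
    rw [b5]
    linarith
  have p1 : max ((1 - D) / 2 - 2 * Fintype.card ι * u) 0 *
      max ((1 - D) / 2 - 2 * Fintype.card ι * u - cc) 0 ≤ max (mean f) 0 * max (mean g) 0 :=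
    mul_le_mul (max_le_max mf le_rfl) (max_le_max mg le_rfl) (le_max_right _ _) (le_max_right _ _)
  have p2 : 8 * k * (1 - mean f - mean g) ≤ 8 * k * (D + 4 * Fintype.card ι * u + cc) := by
    apply mul_le_mul_of_nonneg_left _ (by positivity)
    linarith
  have p3 : 128 / k * mean (hh FF KK RR) ≤ 128 / k * ee :=
    mul_le_mul_of_nonneg_left mh (by positivity)
  linarith

/-- the bound in the limit -/
theorem combine {ι : Type} [Fintype ι] (cx cy h τ : ι → ℝ) (hh0 : ∀ i, 0 < h i) (hτ : ∀ i, |τ i| ≤ 1 / 10)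
    (Kb : ℕ) (S : ι → Set (ℝ × ℝ))
    (hS : ∀ i, ∀ X Y : ℝ, |X - cx i + τ i * (Y - cy i)| < h i → |Y - cy i - τ i * (X - cx i)| < h i →
      (X, Y) ∈ S i)
    (hbox : ∀ i, ∀ p ∈ S i, (0 < p.1 ∧ p.1 < Kb) ∧ (0 < p.2 ∧ p.2 < Kb))
    (hd : ∀ i j, i ≠ j → Disjoint (S i) (S j)) (j : ℤ)
    (hj : (Fintype.card ι : ℤ) = (Kb : ℤ) ^ 2 + 2 * j + 1) (k : ℝ) (hk0 : 0 < k) (hk1 : k ≤ 1)
    (D : ℝ) (hD : D = (Kb : ℝ) ^ 2 + Fintype.card ι - 4 * ∑ i, h i) :
    max ((1 - D) / 2) 0 * max ((1 - D) / 2 - 180 * ∑ i, τ i ^ 2) 0 ≤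
    (∑ i, (4 * |τ i| * |1 - 2 * h i| + 180 * τ i ^ 2)) + 8 * k * (D + 180 * ∑ i, τ i ^ 2)
      + 128 / k * (∑ i, (4 * |τ i| * |1 - 2 * h i| + 180 * τ i ^ 2)) := by
  set A : ℝ → ℝ := fun u => max ((1 - D) / 2 - 2 * Fintype.card ι * u) 0 *
      max ((1 - D) / 2 - 2 * Fintype.card ι * u - ∑ i, 5 * (6 * |τ i| + 2 * u) ^ 2) 0 with hA
  set B : ℝ → ℝ := fun u => (∑ i, (4 * (|τ i| + u) * (|1 - 2 * h i| + 2 * u) + 5 * (6 * |τ i| + 2 * u) ^ 2))
      + 8 * k * (D + 4 * Fintype.card ι * u + ∑ i, 5 * (6 * |τ i| + 2 * u) ^ 2)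
      + 128 / k * (∑ i, (4 * (|τ i| + u) * (|1 - 2 * h i| + 2 * u) + 5 * (6 * |τ i| + 2 * u) ^ 2)) with hB
  have cA : Continuous A := by
    rw [hA]
    fun_prop
  have cB : Continuous B := by
    rw [hB]
    fun_prop
  have hlim := tendsto_one_div_add_atTop_nhds_zero_nat (𝕜 := ℝ)
  have tA := (cA.tendsto 0).comp hlim
  have tB := (cB.tendsto 0).comp hlim
  have hle := le_of_tendsto_of_tendsto' tA tB (fun M => by
    have := atM cx cy h τ hh0 hτ Kb S hS hbox hd j hj k hk0 hk1 D hD (M + 1) (Nat.succ_pos M)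
      (1 / ((M : ℝ) + 1)) (by push_cast; rfl)
    exact this)
  have e1 : ∑ i, 5 * (6 * |τ i| + 2 * 0) ^ 2 = 180 * ∑ i, τ i ^ 2 := by
    rw [Finset.mul_sum]
    apply Finset.sum_congr rfl
    intro i _
    rw [mul_zero, add_zero, mul_pow, sq_abs]; ring
  have e2 : ∑ i, (4 * (|τ i| + 0) * (|1 - 2 * h i| + 2 * 0) + 5 * (6 * |τ i| + 2 * 0) ^ 2)
      = ∑ i, (4 * |τ i| * |1 - 2 * h i| + 180 * τ i ^ 2) := by
    apply Finset.sum_congr rfl
    intro i _
    rw [mul_zero, add_zero, add_zero, add_zero, mul_pow, sq_abs]; ring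
  simp only [hA, hB] at hle
  rw [e1, e2] at hle
  simpa using hle

end Pool.H10.SU
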