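import Pool.Agent.H10.SU.Four

/-! Averaging operator on the discrete torus. -/

set_option autoImplicit false

namespace Pool.H10.SU

open Finset

variable {M : ℕ}

/-- average over a `2 × 2` block -/
noncomputable def T (g : ZMod M × ZMod M → ℝ) (z : ZMod M × ZMod M) : ℝ :=
  (g z + g (z + (1, 0)) + g (z + (0, 1)) + g (z + (1, 1))) / 4

/-- variance over a `2 × 2` block -/
noncomputable def va (g : ZMod M × ZMod M → ℝ) (z : ZMod M × ZMod M) : ℝ :=
  v4 (g z) (g (z + (1, 0))) (g (z + (0, 1))) (g (z + (1, 1)))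

lemma va_nonneg (g : ZMod M × ZMod M → ℝ) (z : ZMod M × ZMod M) : 0 ≤ va g z := v4_nonneg _ _ _ _

lemma T_iter_succ (t : ℕ) (g : ZMod M × ZMod M → ℝ) : T^[t + 1] g = T (T^[t] g) := by
  rw [Function.iterate_succ_apply']

lemma T_iter_lin (t : ℕ) (a b : ℝ) (g g' : ZMod M × ZMod M → ℝ) :
    T^[t] (fun z => a * g z + b * g' z) = fun z => a * T^[t] g z + b * T^[t] g' z := by
  induction t with
  | zero => rfl
  | succ t ih =>
    rw [T_iter_succ, T_iter_succ, T_iter_succ, ih]
    ext z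
    simp only [T]
    ring

lemma T_iter_const (t : ℕ) (a : ℝ) : T^[t] (fun _ : ZMod M × ZMod M => a) = fun _ => a := by
  induction t with
  | zero => rfl
  | succ t ih =>
    rw [T_iter_succ, ih]
    ext z
    simp only [T]
    ring

lemma T_iter_nonneg (t : ℕ) (g : ZMod M × ZMod M → ℝ) (h : ∀ z, 0 ≤ g z) : ∀ z, 0 ≤ T^[t] g z := by
  induction t with
  | zero => exact h
  | succ t ih =>
    intro z
    rw [T_iter_succ]
    simp only [T]
    have h1 := ih z
    have h2 := ih (z + (1, 0))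
    have h3 := ih (z + (0, 1))
    have h4 := ih (z + (1, 1))
    positivity

lemma T_iter_sub (t : ℕ) (g g' : ZMod M × ZMod M → ℝ) (z : ZMod M × ZMod M) :
    T^[t] (fun z => g z - g' z) z = T^[t] g z - T^[t] g' z := by
  have h := congrFun (T_iter_lin t 1 (-1) g g') z
  have e : (fun z => g z - g' z) = fun z => 1 * g z + -1 * g' z := by ext z; ring
  rw [e, h]; ring

lemma T_iter_add (t : ℕ) (g g' : ZMod M × ZMod M → ℝ) (z : ZMod M × ZMod M) :
    T^[t] (fun z => g z + g' z) z = T^[t] g z + T^[t] g' z := by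
  have h := congrFun (T_iter_lin t 1 1 g g') z
  have e : (fun z => g z + g' z) = fun z => 1 * g z + 1 * g' z := by ext z; ring
  rw [e, h]; ring

lemma T_iter_mono (t : ℕ) (g g' : ZMod M × ZMod M → ℝ) (h : ∀ z, g z ≤ g' z) : ∀ z, T^[t] g z ≤ T^[t] g' z := by
  intro z
  have h1 := T_iter_nonneg t (fun z => g' z - g z) (fun z => sub_nonneg.2 (h z)) z
  rw [T_iter_sub] at h1
  linarith

lemma T_iter_shift (t : ℕ) (g : ZMod M × ZMod M → ℝ) (e : ZMod M × ZMod M) :
    T^[t] (fun z => g (z + e)) = fun z => T^[t] g (z + e) := by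
  induction t with
  | zero => rfl
  | succ t ih =>
    rw [T_iter_succ, ih, T_iter_succ]
    ext z
    simp only [T]
    rw [add_right_comm z (1, 0) e, add_right_comm z (0, 1) e, add_right_comm z (1, 1) e]

/-- difference relations are preserved -/
lemma T_iter_rel1 (t : ℕ) (f F : ZMod M × ZMod M → ℝ)
    (h : ∀ z, f (z + (0, 1)) - f z = F (z + (1, 0)) - F z) :
    ∀ z, T^[t] f (z + (0, 1)) - T^[t] f z = T^[t] F (z + (1, 0)) - T^[t] F z := by
  intro z
  have h1 := congrFun (T_iter_shift t f (0, 1)) z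
  have h2 := congrFun (T_iter_shift t F (1, 0)) z
  rw [← h1, ← h2, ← T_iter_sub, ← T_iter_sub]
  have e : (fun z => f (z + (0, 1)) - f z) = fun z => F (z + (1, 0)) - F z := funext h
  rw [e]

lemma T_iter_rel2 (t : ℕ) (g K R : ZMod M × ZMod M → ℝ)
    (h : ∀ z, g (z + (1, 0)) - g z = (K (z + (0, 1)) - K z) + (R (z + (1, 0)) - R z)) :
    ∀ z, T^[t] g (z + (1, 0)) - T^[t] g z
      = (T^[t] K (z + (0, 1)) - T^[t] K z) + (T^[t] R (z + (1, 0)) - T^[t] R z) := by
  intro z
  have h1 := congrFun (T_iter_shift t g (1, 0)) z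
  have h2 := congrFun (T_iter_shift t K (0, 1)) z
  have h3 := congrFun (T_iter_shift t R (1, 0)) z
  rw [← h1, ← h2, ← h3, ← T_iter_sub, ← T_iter_sub, ← T_iter_sub, ← T_iter_add]
  have e : (fun z => g (z + (1, 0)) - g z) = fun z => (K (z + (0, 1)) - K z) + (R (z + (1, 0)) - R z) := funext h
  rw [e]

variable [NeZero M]

lemma sum_shift (g : ZMod M × ZMod M → ℝ) (e : ZMod M × ZMod M) : ∑ z, g (z + e) = ∑ z, g z :=
  Equiv.sum_comp (Equiv.addRight e) g

lemma sum_avg (g : ZMod M × ZMod M → ℝ) :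
    ∑ z, (g z + g (z + (1, 0)) + g (z + (0, 1)) + g (z + (1, 1))) / 4 = ∑ z, g z := by
  rw [← Finset.sum_div, Finset.sum_add_distrib, Finset.sum_add_distrib, Finset.sum_add_distrib,
    sum_shift, sum_shift, sum_shift]
  ring

lemma sum_T (g : ZMod M × ZMod M → ℝ) : ∑ z, T g z = ∑ z, g z := sum_avg g

lemma sum_T_iter (t : ℕ) (g : ZMod M × ZMod M → ℝ) : ∑ z, T^[t] g z = ∑ z, g z := by
  induction t with
  | zero => rfl
  | succ t ih => rw [T_iter_succ, sum_T, ih]

open Classical in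
/-- truncated energy inequality -/
lemma trunc (c : ZMod M × ZMod M → ℝ) (hc : ∀ z, 0 ≤ c z) (l : ℝ) (hl : 0 ≤ l)
    (R : ℕ → ZMod M × ZMod M → Prop)
    (hR : ∀ t z, R t z → T^[t] c z ≤ l ∧ T^[t] c (z + (1, 0)) ≤ l ∧ T^[t] c (z + (0, 1)) ≤ l ∧
      T^[t] c (z + (1, 1)) ≤ l) (N : ℕ) :
    ∑ t ∈ range N, ∑ z, (if R t z then va (T^[t] c) z else 0) ≤ 2 * l * ∑ z, c z := by
  have key : ∀ N, ∑ t ∈ range N, ∑ z, (if R t z then va (T^[t] c) z else 0) + ∑ z, om l (T^[N] c z)
      ≤ ∑ z, om l (c z) := by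
    intro N
    induction N with
    | zero => simp
    | succ N ih =>
      rw [Finset.sum_range_succ]
      have h1 : ∑ z, (if R N z then va (T^[N] c) z else 0) + ∑ z, om l (T^[N + 1] c z)
          ≤ ∑ z, om l (T^[N] c z) := by
        rw [← Finset.sum_add_distrib, ← sum_avg (fun z => om l (T^[N] c z))]
        apply Finset.sum_le_sum
        intro z _
        rw [T_iter_succ]
        simp only [T]
        by_cases h : R N z
        · obtain ⟨a, b, d, e⟩ := hR N z h
          rw [if_pos h]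
          have := om_gap l _ _ _ _ a b d e
          unfold va
          linarith
        · rw [if_neg h]
          have := om_jensen l (T^[N] c z) (T^[N] c (z + (1, 0))) (T^[N] c (z + (0, 1))) (T^[N] c (z + (1, 1)))
          linarith
      linarith
  have h1 := key N
  have h2 : 0 ≤ ∑ z, om l (T^[N] c z) := Finset.sum_nonneg fun z _ => om_nonneg l _ hl
  have h3 : ∑ z, om l (c z) ≤ 2 * l * ∑ z, c z := by
    rw [Finset.mul_sum]
    exact Finset.sum_le_sum fun z _ => om_le l _ (hc z)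
  linarith

open Classical in
lemma trunc_abs (c : ZMod M × ZMod M → ℝ) (l : ℝ) (hl : 0 ≤ l)
    (R : ℕ → ZMod M × ZMod M → Prop)
    (hR : ∀ t z, R t z → T^[t] (fun z => |c z|) z ≤ l ∧ T^[t] (fun z => |c z|) (z + (1, 0)) ≤ l ∧
      T^[t] (fun z => |c z|) (z + (0, 1)) ≤ l ∧ T^[t] (fun z => |c z|) (z + (1, 1)) ≤ l) (N : ℕ) :
    ∑ t ∈ range N, ∑ z, (if R t z then va (T^[t] c) z else 0) ≤ 4 * l * ∑ z, |c z| := by
  have hp := T_iter_mono (M := M)
  have p1 : ∀ t z, T^[t] (fun z => max (c z) 0) z ≤ T^[t] (fun z => |c z|) z := fun t z =>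
    hp t _ _ (fun w => max_le (le_abs_self _) (abs_nonneg _)) z
  have p2 : ∀ t z, T^[t] (fun z => max (-c z) 0) z ≤ T^[t] (fun z => |c z|) z := fun t z =>
    hp t _ _ (fun w => max_le (neg_le_abs _) (abs_nonneg _)) z
  have h1 := trunc (fun z => max (c z) 0) (fun z => le_max_right _ _) l hl R (fun t z h => by
    obtain ⟨a, b, d, e⟩ := hR t z h
    exact ⟨(p1 t _).trans a, (p1 t _).trans b, (p1 t _).trans d, (p1 t _).trans e⟩) N
  have h2 := trunc (fun z => max (-c z) 0) (fun z => le_max_right _ _) l hl R (fun t z h => by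
    obtain ⟨a, b, d, e⟩ := hR t z h
    exact ⟨(p2 t _).trans a, (p2 t _).trans b, (p2 t _).trans d, (p2 t _).trans e⟩) N
  have h3 : ∀ t z, va (T^[t] c) z ≤ 2 * va (T^[t] (fun z => max (c z) 0)) z
      + 2 * va (T^[t] (fun z => max (-c z) 0)) z := by
    intro t z
    have e : c = fun z => max (c z) 0 - max (-c z) 0 := by
      ext z
      rcases le_total 0 (c z) with h | h
      · rw [max_eq_left h, max_eq_right (by linarith)]; ring
      · rw [max_eq_right h, max_eq_left (by linarith)]; ring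
    have e2 : ∀ w, T^[t] c w = T^[t] (fun z => max (c z) 0) w - T^[t] (fun z => max (-c z) 0) w := by
      intro w
      conv_lhs => rw [e]
      rw [T_iter_sub]
    unfold va
    rw [e2, e2, e2, e2]
    exact v4_add _ _ _ _ _ _ _ _
  have h4 : ∑ t ∈ range N, ∑ z, (if R t z then va (T^[t] c) z else 0) ≤
      2 * ∑ t ∈ range N, ∑ z, (if R t z then va (T^[t] (fun z => max (c z) 0)) z else 0)
      + 2 * ∑ t ∈ range N, ∑ z, (if R t z then va (T^[t] (fun z => max (-c z) 0)) z else 0) := by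
    rw [Finset.mul_sum, Finset.mul_sum, ← Finset.sum_add_distrib]
    apply Finset.sum_le_sum
    intro t _
    rw [Finset.mul_sum, Finset.mul_sum, ← Finset.sum_add_distrib]
    apply Finset.sum_le_sum
    intro z _
    split_ifs
    · exact h3 t z
    · simp
  have h5 : ∑ z, |c z| = ∑ z, max (c z) 0 + ∑ z, max (-c z) 0 := by
    rw [← Finset.sum_add_distrib]
    apply Finset.sum_congr rfl
    intro z _
    rcases le_total 0 (c z) with h | h
    · rw [max_eq_left h, max_eq_right (by linarith), abs_of_nonneg h]; ring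
    · rw [max_eq_right h, max_eq_left (by linarith), abs_of_nonpos h]; ring
  rw [h5]
  linarith

/-- convergence to the mean, quantitatively -/
lemma osc (g : ZMod M × ZMod M → ℝ) (δ : ℝ) (h1 : ∀ z, |g (z + (1, 0)) - g z| ≤ δ)
    (h2 : ∀ z, |g (z + (0, 1)) - g z| ≤ δ) : ∀ z w, |g w - g z| ≤ 2 * M * δ := by
  have hδ : 0 ≤ δ := (abs_nonneg _).trans (h1 0)
  have a1 : ∀ n : ℕ, ∀ z, |g (z + ((n : ZMod M), 0)) - g z| ≤ n * δ := by
    intro n
    induction n with
    | zero =>
      intro z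
      have e : z + (((0 : ℕ) : ZMod M), 0) = z := by ext <;> simp
      rw [e]; simp
    | succ n ih =>
      intro z
      have e : z + (((n + 1 : ℕ) : ZMod M), 0) = (z + ((n : ZMod M), 0)) + (1, 0) := by
        ext <;> simp [add_assoc]
      rw [e]
      have := abs_add_le (g ((z + ((n : ZMod M), 0)) + (1, 0)) - g (z + ((n : ZMod M), 0)))
        (g (z + ((n : ZMod M), 0)) - g z)
      rw [sub_add_sub_cancel] at this
      have g1 := h1 (z + ((n : ZMod M), 0))
      have g2 := ih z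
      push_cast
      linarith
  have a2 : ∀ n : ℕ, ∀ z, |g (z + (0, (n : ZMod M))) - g z| ≤ n * δ := by
    intro n
    induction n with
    | zero =>
      intro z
      have e : z + (0, ((0 : ℕ) : ZMod M)) = z := by ext <;> simp
      rw [e]; simp
    | succ n ih =>
      intro z
      have e : z + (0, ((n + 1 : ℕ) : ZMod M)) = (z + (0, (n : ZMod M))) + (0, 1) := by
        ext <;> simp [add_assoc]
      rw [e]
      have := abs_add_le (g ((z + (0, (n : ZMod M))) + (0, 1)) - g (z + (0, (n : ZMod M))))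
        (g (z + (0, (n : ZMod M))) - g z)
      rw [sub_add_sub_cancel] at this
      have g1 := h2 (z + (0, (n : ZMod M)))
      have g2 := ih z
      push_cast
      linarith
  intro z w
  have b1 := a1 (w - z).1.val z
  have b2 := a2 (w - z).2.val (z + (((w - z).1.val : ZMod M), 0))
  rw [ZMod.natCast_zmod_val] at b1 b2
  rw [ZMod.natCast_zmod_val] at b2
  have e : z + ((w - z).1, 0) + (0, (w - z).2) = w := by
    ext <;> simp
  rw [e] at b2
  have c1 : ((w - z).1.val : ℝ) ≤ M := by exact_mod_cast (ZMod.val_lt _).le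
  have c2 : ((w - z).2.val : ℝ) ≤ M := by exact_mod_cast (ZMod.val_lt _).le
  have := abs_add_le (g w - g (z + ((w - z).1, 0))) (g (z + ((w - z).1, 0)) - g z)
  rw [sub_add_sub_cancel] at this
  have d1 := mul_le_mul_of_nonneg_right c1 hδ
  have d2 := mul_le_mul_of_nonneg_right c2 hδ
  linarith

/-- the mean -/
noncomputable def mean (g : ZMod M × ZMod M → ℝ) : ℝ := (∑ z, g z) / (M : ℝ) ^ 2

lemma cardG : (Finset.univ : Finset (ZMod M × ZMod M)).card = M ^ 2 := by
  rw [Finset.card_univ, Fintype.card_prod, ZMod.card]; ring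

lemma close_mean (g : ZMod M × ZMod M → ℝ) (e : ℝ) (h : ∀ z w, |g w - g z| ≤ e) (z : ZMod M × ZMod M) :
    |g z - mean g| ≤ e := by
  have hM : (0 : ℝ) < (M : ℝ) ^ 2 := by
    have := NeZero.pos M
    positivity
  have e1 : g z - mean g = (∑ w, (g z - g w)) / (M : ℝ) ^ 2 := by
    rw [Finset.sum_sub_distrib, Finset.sum_const, cardG, mean, nsmul_eq_mul, sub_div]
    push_cast
    rw [mul_div_cancel_left₀ _ hM.ne']
  rw [e1, abs_div, abs_of_pos hM, div_le_iff₀ hM]
  calc |∑ w, (g z - g w)| ≤ ∑ w, |g z - g w| := Finset.abs_sum_le_sum_abs _ _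
    _ ≤ ∑ _w : ZMod M × ZMod M, e := Finset.sum_le_sum fun w _ => h w z
    _ = e * (M : ℝ) ^ 2 := by rw [Finset.sum_const, cardG, nsmul_eq_mul]; push_cast; ring

lemma sum_va (g : ZMod M × ZMod M → ℝ) : ∑ z, va g z = ∑ z, g z ^ 2 - ∑ z, (T g z) ^ 2 := by
  rw [← sum_avg (fun z => g z ^ 2), ← Finset.sum_sub_distrib]
  apply Finset.sum_congr rfl
  intro z _
  unfold va v4 T
  ring

lemma mean_T_iter (t : ℕ) (g : ZMod M × ZMod M → ℝ) : mean (T^[t] g) = mean g := by
  unfold mean; rw [sum_T_iter]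

lemma conv3 (f g h : ZMod M × ZMod M → ℝ) (δ : ℝ) (hδ : 0 < δ) :
    ∃ t : ℕ, ∀ z, |T^[t] f z - mean f| ≤ δ ∧ |T^[t] g z - mean g| ≤ δ ∧ |T^[t] h z - mean h| ≤ δ := by
  have hM0 : (0 : ℝ) < M := by exact_mod_cast NeZero.pos M
  -- total variance at time t
  set V : ℕ → ℝ := fun t => ∑ z, (va (T^[t] f) z + va (T^[t] g) z + va (T^[t] h) z) with hV
  have hVt : ∀ N, ∑ t ∈ range N, V t ≤ ∑ z, (f z ^ 2 + g z ^ 2 + h z ^ 2) := by
    have key : ∀ N, ∑ t ∈ range N, V t + ∑ z, ((T^[N] f z) ^ 2 + (T^[N] g z) ^ 2 + (T^[N] h z) ^ 2)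
        = ∑ z, (f z ^ 2 + g z ^ 2 + h z ^ 2) := by
      intro N
      induction N with
      | zero => simp
      | succ N ih =>
        rw [Finset.sum_range_succ]
        have e : V N + ∑ z, ((T^[N + 1] f z) ^ 2 + (T^[N + 1] g z) ^ 2 + (T^[N + 1] h z) ^ 2)
            = ∑ z, ((T^[N] f z) ^ 2 + (T^[N] g z) ^ 2 + (T^[N] h z) ^ 2) := by
          rw [hV]
          simp only [T_iter_succ, Finset.sum_add_distrib, sum_va]
          ring
        linarith
    intro N
    have := key N
    have h2 : 0 ≤ ∑ z, ((T^[N] f z) ^ 2 + (T^[N] g z) ^ 2 + (T^[N] h z) ^ 2) :=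
      Finset.sum_nonneg fun z _ => by positivity
    linarith
  set e : ℝ := (δ / (2 * M)) ^ 2 / 8 with he
  have he0 : 0 < e := by positivity
  obtain ⟨t, ht⟩ : ∃ t, V t ≤ e := by
    by_contra hcon
    push Not at hcon
    obtain ⟨N, hN⟩ := exists_nat_gt ((∑ z, (f z ^ 2 + g z ^ 2 + h z ^ 2)) / e)
    rw [div_lt_iff₀ he0] at hN
    have h1 : (N : ℝ) * e ≤ ∑ t ∈ range N, V t := by
      have : ∑ _t ∈ range N, e ≤ ∑ t ∈ range N, V t := Finset.sum_le_sum fun t _ => (hcon t).le
      rw [Finset.sum_const, Finset.card_range, nsmul_eq_mul] at this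
      exact this
    have := hVt N
    linarith
  refine ⟨t, ?_⟩
  have hz : ∀ z, va (T^[t] f) z + va (T^[t] g) z + va (T^[t] h) z ≤ e := by
    intro z
    refine le_trans ?_ ht
    exact Finset.single_le_sum (f := fun z => va (T^[t] f) z + va (T^[t] g) z + va (T^[t] h) z)
      (fun w _ => by
        have := va_nonneg (T^[t] f) w
        have := va_nonneg (T^[t] g) w
        have := va_nonneg (T^[t] h) w
        positivity) (Finset.mem_univ z)
  have one : ∀ (u : ZMod M × ZMod M → ℝ), (∀ z, va (T^[t] u) z ≤ e) → ∀ z, |T^[t] u z - mean u| ≤ δ := by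
    intro u hu z
    have hd : 0 ≤ δ / (2 * M) := by positivity
    have k1 : ∀ z, |T^[t] u (z + (1, 0)) - T^[t] u z| ≤ δ / (2 * M) := by
      intro z
      apply abs_le_of_sq_le_sq _ hd
      have := v4_ab (T^[t] u z) (T^[t] u (z + (1, 0))) (T^[t] u (z + (0, 1))) (T^[t] u (z + (1, 1)))
      have h2 := hu z
      unfold va at h2
      rw [he] at h2
      linarith
    have k2 : ∀ z, |T^[t] u (z + (0, 1)) - T^[t] u z| ≤ δ / (2 * M) := by
      intro z
      apply abs_le_of_sq_le_sq _ hd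
      have := v4_ac (T^[t] u z) (T^[t] u (z + (1, 0))) (T^[t] u (z + (0, 1))) (T^[t] u (z + (1, 1)))
      have h2 := hu z
      unfold va at h2
      rw [he] at h2
      linarith
    have k3 := osc (T^[t] u) _ k1 k2
    have k4 := close_mean (T^[t] u) _ k3 z
    rw [mean_T_iter] at k4
    have e2 : 2 * (M : ℝ) * (δ / (2 * M)) = δ := by field_simp
    rw [e2] at k4
    exact k4
  intro z
  refine ⟨one f (fun z => ?_) z, one g (fun z => ?_) z, one h (fun z => ?_) z⟩
  · have := hz z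
    have := va_nonneg (T^[t] g) z
    have := va_nonneg (T^[t] h) z
    linarith
  · have := hz z
    have := va_nonneg (T^[t] f) z
    have := va_nonneg (T^[t] h) z
    linarith
  · have := hz z
    have := va_nonneg (T^[t] g) z
    have := va_nonneg (T^[t] f) z
    linarith

end Pool.H10.SU
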