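import Mathlib

/-! Inequalities for four numbers placed on a `2 × 2` block. -/

set_option autoImplicit false

namespace Pool.H10.SU

/-- variance of four numbers -/
noncomputable def v4 (a b c d : ℝ) : ℝ := (a ^ 2 + b ^ 2 + c ^ 2 + d ^ 2) / 4 - ((a + b + c + d) / 4) ^ 2

lemma v4_eq (a b c d : ℝ) : v4 a b c d = ((a - (a + b + c + d) / 4) ^ 2 + (b - (a + b + c + d) / 4) ^ 2
    + (c - (a + b + c + d) / 4) ^ 2 + (d - (a + b + c + d) / 4) ^ 2) / 4 := by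
  unfold v4; ring

lemma v4_nonneg (a b c d : ℝ) : 0 ≤ v4 a b c d := by
  rw [v4_eq]; positivity

lemma v4_ab (a b c d : ℝ) : (b - a) ^ 2 ≤ 8 * v4 a b c d := by
  rw [v4_eq]
  nlinarith [sq_nonneg ((a - (a + b + c + d) / 4) + (b - (a + b + c + d) / 4)),
    sq_nonneg (c - (a + b + c + d) / 4), sq_nonneg (d - (a + b + c + d) / 4)]

lemma v4_ac (a b c d : ℝ) : (c - a) ^ 2 ≤ 8 * v4 a b c d := by
  rw [v4_eq]
  nlinarith [sq_nonneg ((a - (a + b + c + d) / 4) + (c - (a + b + c + d) / 4)),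
    sq_nonneg (b - (a + b + c + d) / 4), sq_nonneg (d - (a + b + c + d) / 4)]

lemma v4_add (a b c d a' b' c' d' : ℝ) :
    v4 (a - a') (b - b') (c - c') (d - d') ≤ 2 * v4 a b c d + 2 * v4 a' b' c' d' := by
  have h := v4_nonneg (a + a') (b + b') (c + c') (d + d')
  unfold v4 at *
  nlinarith

/-- the truncated square -/
noncomputable def om (l x : ℝ) : ℝ := if x ≤ l then x ^ 2 else 2 * l * x - l ^ 2

lemma om_tan (l x m : ℝ) : om l m + 2 * min m l * (x - m) ≤ om l x := by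
  unfold om
  split_ifs with h1 h2 h2
  · rw [min_eq_left h1]; nlinarith [sq_nonneg (x - m)]
  · rw [min_eq_left h1]; push Not at h2
    nlinarith [mul_nonneg (sub_nonneg.2 h1) (sub_nonneg.2 h2.le), mul_nonneg (sub_nonneg.2 h1) (sub_nonneg.2 h1)]
  · push Not at h1; rw [min_eq_right h1.le]; nlinarith [sq_nonneg (x - l)]
  · push Not at h1; rw [min_eq_right h1.le]; linarith

lemma om_jensen (l a b c d : ℝ) :
    om l ((a + b + c + d) / 4) ≤ (om l a + om l b + om l c + om l d) / 4 := by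
  have h1 := om_tan l a ((a + b + c + d) / 4)
  have h2 := om_tan l b ((a + b + c + d) / 4)
  have h3 := om_tan l c ((a + b + c + d) / 4)
  have h4 := om_tan l d ((a + b + c + d) / 4)
  have e : 2 * min ((a + b + c + d) / 4) l * (a - (a + b + c + d) / 4)
      + 2 * min ((a + b + c + d) / 4) l * (b - (a + b + c + d) / 4)
      + 2 * min ((a + b + c + d) / 4) l * (c - (a + b + c + d) / 4)
      + 2 * min ((a + b + c + d) / 4) l * (d - (a + b + c + d) / 4) = 0 := by ring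
  linarith

lemma om_gap (l a b c d : ℝ) (ha : a ≤ l) (hb : b ≤ l) (hc : c ≤ l) (hd : d ≤ l) :
    om l ((a + b + c + d) / 4) + v4 a b c d = (om l a + om l b + om l c + om l d) / 4 := by
  have hm : (a + b + c + d) / 4 ≤ l := by linarith
  unfold om v4
  rw [if_pos ha, if_pos hb, if_pos hc, if_pos hd, if_pos hm]
  ring

lemma om_le (l x : ℝ) (hx : 0 ≤ x) : om l x ≤ 2 * l * x := by
  unfold om
  split_ifs with h
  · nlinarith
  · nlinarith [sq_nonneg l]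

lemma om_nonneg (l x : ℝ) (hl : 0 ≤ l) : 0 ≤ om l x := by
  unfold om
  split_ifs with h
  · positivity
  · push Not at h; nlinarith

/-- semiconvexity of `x⁺ y⁺` -/
lemma semi (X Y a b : ℝ) :
    max X 0 * max Y 0 + (if 0 < X then max Y 0 else 0) * a + (if 0 < Y then max X 0 else 0) * b
      - (a ^ 2 + b ^ 2) / 2 ≤ max (X + a) 0 * max (Y + b) 0 := by
  have hp : 0 ≤ max (X + a) 0 * max (Y + b) 0 := mul_nonneg (le_max_right _ _) (le_max_right _ _)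
  rcases le_or_gt X 0 with hX | hX
  · rw [if_neg (not_lt.2 hX), max_eq_right hX]
    split_ifs <;> nlinarith [sq_nonneg a, sq_nonneg b]
  rcases le_or_gt Y 0 with hY | hY
  · rw [if_neg (not_lt.2 hY), max_eq_right hY]
    split_ifs <;> nlinarith [sq_nonneg a, sq_nonneg b]
  rw [if_pos hX, if_pos hY, max_eq_left hX.le, max_eq_left hY.le]
  have e : X * Y + Y * a + X * b - (a ^ 2 + b ^ 2) / 2 = (X + a) * (Y + b) - (a + b) ^ 2 / 2 := by ring
  rw [e]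
  rcases le_or_gt (X + a) 0 with h1 | h1
  · rcases le_or_gt (Y + b) 0 with h2 | h2
    · have h3 : 0 ≤ -(X + a) := by linarith
      have h4 : 0 ≤ -(Y + b) := by linarith
      have h5 : (-(X + a)) * (-(Y + b)) ≤ (-a) * (-b) := by
        apply mul_le_mul (by linarith) (by linarith) h4 (by linarith)
      nlinarith [sq_nonneg (a - b), sq_nonneg (a + b)]
    · have : (X + a) * (Y + b) ≤ 0 := mul_nonpos_of_nonpos_of_nonneg h1 h2.le
      nlinarith [sq_nonneg (a + b)]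
  · rcases le_or_gt (Y + b) 0 with h2 | h2
    · have : (X + a) * (Y + b) ≤ 0 := mul_nonpos_of_nonneg_of_nonpos h1.le h2
      nlinarith [sq_nonneg (a + b)]
    · rw [max_eq_left h1.le, max_eq_left h2.le]
      nlinarith [sq_nonneg (a + b)]

lemma abs_max_sub (x y : ℝ) : |max x 0 - max y 0| ≤ |x - y| := by
  have := abs_max_sub_max_le_max x 0 y 0
  simpa using this

lemma prod4 (f0 f1 g0 g1 : ℝ) :
    max ((f0 + f1) / 2) 0 * max ((g0 + g1) / 2) 0 ≤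
      (max f0 0 * max g0 0 + max f0 0 * max g1 0 + max f1 0 * max g0 0 + max f1 0 * max g1 0) / 4 := by
  have a0 := le_max_left f0 0
  have a1 := le_max_left f1 0
  have a2 := le_max_right f0 0
  have a3 := le_max_right f1 0
  have b0 := le_max_left g0 0
  have b1 := le_max_left g1 0
  have b2 := le_max_right g0 0
  have b3 := le_max_right g1 0
  have h1 : max ((f0 + f1) / 2) 0 ≤ (max f0 0 + max f1 0) / 2 := max_le (by linarith) (by linarith)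
  have h2 : max ((g0 + g1) / 2) 0 ≤ (max g0 0 + max g1 0) / 2 := max_le (by linarith) (by linarith)
  calc _ ≤ (max f0 0 + max f1 0) / 2 * ((max g0 0 + max g1 0) / 2) :=
        mul_le_mul h1 h2 (le_max_right _ _) (by linarith)
    _ = _ := by ring

lemma first4 (g0 g1 x u : ℝ) : -(|g1 - g0| * |u| / 2) ≤ (if 0 < x then max g1 0 else 0) * (u / 2) +
      (if 0 < x then max g0 0 else 0) * (-u / 2) := by
  split_ifs
  · have e : max g1 0 * (u / 2) + max g0 0 * (-u / 2) = (max g1 0 - max g0 0) * u / 2 := by ring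
    rw [e]
    have h0 := abs_mul (max g1 0 - max g0 0) u
    have h1 : |max g1 0 - max g0 0| * |u| ≤ |g1 - g0| * |u| :=
      mul_le_mul_of_nonneg_right (abs_max_sub g1 g0) (abs_nonneg _)
    have h2 := neg_abs_le ((max g1 0 - max g0 0) * u)
    linarith
  · have : 0 ≤ |g1 - g0| * |u| := by positivity
    linarith

lemma amgm4 (k A u : ℝ) (hk : 0 < k) : |A| * |u| ≤ k / 4 * A ^ 2 + 1 / k * u ^ 2 := by
  have h1 : 0 ≤ (k / 2 * |A| - |u|) ^ 2 / k := by positivity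
  have h2 : (k / 2 * |A| - |u|) ^ 2 / k = k / 4 * |A| ^ 2 - |A| * |u| + 1 / k * |u| ^ 2 := by
    field_simp; ring
  rw [h2, sq_abs, sq_abs] at h1
  linarith

lemma energy4 (G u0 u1 V : ℝ) (h1 : (G + (u0 + u1) / 2) ^ 2 ≤ 4 * V) : G ^ 2 ≤ 8 * V + (u0 ^ 2 + u1 ^ 2) := by
  nlinarith [sq_nonneg (G + (u0 + u1)), sq_nonneg (u0 - u1)]

lemma last4 (G F V u0 u1 v0 v1 k S P L a b c d : ℝ) (hk0 : 0 < k) (hk1 : k ≤ 1)
    (hG : G ^ 2 ≤ 8 * V + (u0 ^ 2 + u1 ^ 2)) (hF : F ^ 2 ≤ 8 * V + (v0 ^ 2 + v1 ^ 2))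
    (hL : L ≤ P / 4)
    (hS : P + a + b + c + d - (u0 ^ 2 + u1 ^ 2 + v0 ^ 2 + v1 ^ 2) / 4 ≤ S)
    (ha : -(|G| * |u0| / 2) ≤ a) (hb : -(|G| * |u1| / 2) ≤ b) (hc : -(|F| * |v0| / 2) ≤ c)
    (hd : -(|F| * |v1| / 2) ≤ d) :
    L ≤ S / 4 + k * V + 1 / (4 * k) * (u0 ^ 2 + u1 ^ 2 + v0 ^ 2 + v1 ^ 2) := by
  have a1 := amgm4 k G u0 hk0
  have a2 := amgm4 k G u1 hk0
  have a3 := amgm4 k F v0 hk0
  have a4 := amgm4 k F v1 hk0
  have hk : 1 ≤ 1 / k := by rw [le_div_iff₀ hk0]; linarith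
  have hq : 1 / (4 * k) = 1 / k / 4 := by field_simp
  rw [hq]
  set K := 1 / k with hK
  set W := u0 ^ 2 + u1 ^ 2 with hW
  set Z := v0 ^ 2 + v1 ^ 2 with hZ
  have hW0 : 0 ≤ W := by positivity
  have hZ0 : 0 ≤ Z := by positivity
  have hk3 : k * W ≤ W := mul_le_of_le_one_left hW0 hk1
  have hk4 : k * Z ≤ Z := mul_le_of_le_one_left hZ0 hk1
  have hk5 : W ≤ K * W := le_mul_of_one_le_left hW0 hk
  have hk6 : Z ≤ K * Z := le_mul_of_one_le_left hZ0 hk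
  have hkG := mul_le_mul_of_nonneg_left hG hk0.le
  have hkF := mul_le_mul_of_nonneg_left hF hk0.le
  have e1 : k * (8 * V + W) = 8 * (k * V) + k * W := by ring
  have e2 : k * (8 * V + Z) = 8 * (k * V) + k * Z := by ring
  have e3 : K * u0 ^ 2 + K * u1 ^ 2 = K * W := by rw [hW]; ring
  have e4 : K * v0 ^ 2 + K * v1 ^ 2 = K * Z := by rw [hZ]; ring
  have e5 : u0 ^ 2 + u1 ^ 2 + v0 ^ 2 + v1 ^ 2 = W + Z := by rw [hW, hZ]; ring
  have e6 : K / 4 * (W + v0 ^ 2 + v1 ^ 2) = (K * W + K * Z) / 4 := by rw [hZ]; ring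
  rw [e1] at hkG
  rw [e2] at hkF
  have e7 : W + v0 ^ 2 + v1 ^ 2 = W + Z := by rw [hZ]; ring
  rw [e7] at hS
  rw [e6]
  linarith

/-- the key inequality on a `2 × 2` block -/
lemma key4 (f00 f10 f01 f11 g00 g10 g01 g11 k : ℝ) (hk0 : 0 < k) (hk1 : k ≤ 1) :
    max ((f00 + f10 + f01 + f11) / 4) 0 * max ((g00 + g10 + g01 + g11) / 4) 0 ≤
      (max f00 0 * max g00 0 + max f10 0 * max g10 0 + max f01 0 * max g01 0 + max f11 0 * max g11 0) / 4
      + k * v4 (f00 + g00) (f10 + g10) (f01 + g01) (f11 + g11)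
      + 1 / (4 * k) * ((f01 - f00) ^ 2 + (f11 - f10) ^ 2 + (g10 - g00) ^ 2 + (g11 - g01) ^ 2) := by
  obtain ⟨f0, hf0⟩ : ∃ f0, f0 = (f00 + f01) / 2 := ⟨_, rfl⟩
  obtain ⟨f1, hf1⟩ : ∃ f1, f1 = (f10 + f11) / 2 := ⟨_, rfl⟩
  obtain ⟨g0, hg0⟩ : ∃ g0, g0 = (g00 + g10) / 2 := ⟨_, rfl⟩
  obtain ⟨g1, hg1⟩ : ∃ g1, g1 = (g01 + g11) / 2 := ⟨_, rfl⟩
  obtain ⟨u0, hu0⟩ : ∃ u0, u0 = f01 - f00 := ⟨_, rfl⟩
  obtain ⟨u1, hu1⟩ : ∃ u1, u1 = f11 - f10 := ⟨_, rfl⟩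
  obtain ⟨v0, hv0⟩ : ∃ v0, v0 = g10 - g00 := ⟨_, rfl⟩
  obtain ⟨v1, hv1⟩ : ∃ v1, v1 = g11 - g01 := ⟨_, rfl⟩
  have s00 := semi f0 g0 (-u0 / 2) (-v0 / 2)
  have s01 := semi f0 g1 (u0 / 2) (-v1 / 2)
  have s10 := semi f1 g0 (-u1 / 2) (v0 / 2)
  have s11 := semi f1 g1 (u1 / 2) (v1 / 2)
  have e1 : f0 + -u0 / 2 = f00 := by rw [hf0, hu0]; ring
  have e2 : f0 + u0 / 2 = f01 := by rw [hf0, hu0]; ring
  have e3 : f1 + -u1 / 2 = f10 := by rw [hf1, hu1]; ring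
  have e4 : f1 + u1 / 2 = f11 := by rw [hf1, hu1]; ring
  have e5 : g0 + -v0 / 2 = g00 := by rw [hg0, hv0]; ring
  have e6 : g0 + v0 / 2 = g10 := by rw [hg0, hv0]; ring
  have e7 : g1 + -v1 / 2 = g01 := by rw [hg1, hv1]; ring
  have e8 : g1 + v1 / 2 = g11 := by rw [hg1, hv1]; ring
  rw [e1, e5] at s00
  rw [e2, e7] at s01
  rw [e3, e6] at s10
  rw [e4, e8] at s11
  have prod := prod4 f0 f1 g0 g1
  have e9 : (f0 + f1) / 2 = (f00 + f10 + f01 + f11) / 4 := by rw [hf0, hf1]; ring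
  have e10 : (g0 + g1) / 2 = (g00 + g10 + g01 + g11) / 4 := by rw [hg0, hg1]; ring
  rw [e9, e10] at prod
  have t1 := first4 g0 g1 f0 u0
  have t2 := first4 g0 g1 f1 u1
  have t3 := first4 f0 f1 g0 v0
  have t4 := first4 f0 f1 g1 v1
  have hGV : (g1 - g0) ^ 2 ≤ 8 * v4 (f00 + g00) (f10 + g10) (f01 + g01) (f11 + g11) + (u0 ^ 2 + u1 ^ 2) := by
    apply energy4
    have e : 4 * v4 (f00 + g00) (f10 + g10) (f01 + g01) (f11 + g11) - (g1 - g0 + (u0 + u1) / 2) ^ 2 =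
        ((f00 + g00) - (f10 + g10)) ^ 2 / 2 + ((f01 + g01) - (f11 + g11)) ^ 2 / 2 := by
      rw [hg0, hg1, hu0, hu1]; unfold v4; ring
    have : 0 ≤ ((f00 + g00) - (f10 + g10)) ^ 2 / 2 + ((f01 + g01) - (f11 + g11)) ^ 2 / 2 := by positivity
    linarith
  have hFV : (f1 - f0) ^ 2 ≤ 8 * v4 (f00 + g00) (f10 + g10) (f01 + g01) (f11 + g11) + (v0 ^ 2 + v1 ^ 2) := by
    apply energy4
    have e : 4 * v4 (f00 + g00) (f10 + g10) (f01 + g01) (f11 + g11) - (f1 - f0 + (v0 + v1) / 2) ^ 2 =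
        ((f00 + g00) - (f01 + g01)) ^ 2 / 2 + ((f10 + g10) - (f11 + g11)) ^ 2 / 2 := by
      rw [hf0, hf1, hv0, hv1]; unfold v4; ring
    have : 0 ≤ ((f00 + g00) - (f01 + g01)) ^ 2 / 2 + ((f10 + g10) - (f11 + g11)) ^ 2 / 2 := by positivity
    linarith
  rw [← hu0, ← hu1, ← hv0, ← hv1]
  refine last4 (g1 - g0) (f1 - f0) _ u0 u1 v0 v1 k _ _ _ _ _ _ _ hk0 hk1 hGV hFV prod ?_ t1 t2 t3 t4
  clear t1 t2 t3 t4 hGV hFV prod e9 e10 e1 e2 e3 e4 e5 e6 e7 e8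
  linarith

end Pool.H10.SU
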