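import Pool.Agent.H10.SU.Arc

/-! Lattice points in a slightly tilted square, compared with the numbers of lattice rows and columns. -/

set_option autoImplicit false

namespace Pool.H10.SU

open Finset

lemma int_zero_of_abs (l : ℤ) (h : |(l : ℝ)| < 1) : l = 0 := by
  have : |l| < 1 := by exact_mod_cast h
  exact Int.abs_lt_one_iff.1 this

lemma card_cross (P Q : Finset ℤ) (S : Finset (ℤ × ℤ)) (hP : ∀ l ∈ P, (l, (0 : ℤ)) ∈ S)
    (hQ : ∀ l ∈ Q, ((0 : ℤ), l) ∈ S) : P.card + Q.card ≤ 1 + S.card := by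
  set A := P.image (fun l => (l, (0 : ℤ))) with hA
  set B := Q.image (fun l => ((0 : ℤ), l)) with hB
  have cA : A.card = P.card := Finset.card_image_of_injective _ (fun a b h => by simpa using h)
  have cB : B.card = Q.card := Finset.card_image_of_injective _ (fun a b h => by simpa using h)
  have h1 := Finset.card_union_add_card_inter A B
  have h2 : (A ∩ B).card ≤ 1 := by
    rw [Finset.card_le_one]
    intro a ha b hb
    rw [Finset.mem_inter, hA, hB, Finset.mem_image, Finset.mem_image] at ha hb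
    obtain ⟨⟨p, -, hp⟩, q, -, hq⟩ := ha
    obtain ⟨⟨p', -, hp'⟩, q', -, hq'⟩ := hb
    rw [← hp] at hq
    rw [← hp'] at hq'
    have e1 := (Prod.mk.injEq _ _ _ _).mp hq
    have e2 := (Prod.mk.injEq _ _ _ _).mp hq'
    rw [← hp, ← hp', ← e1.1, ← e2.1]
  have h3 : (A ∪ B) ⊆ S := by
    intro z hz
    rw [Finset.mem_union, hA, hB, Finset.mem_image, Finset.mem_image] at hz
    rcases hz with ⟨p, hp, rfl⟩ | ⟨q, hq, rfl⟩
    · exact hP p hp
    · exact hQ q hq
  have h4 := Finset.card_le_card h3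
  omega

/-- the pointwise inequality -/
lemma pw (ξ η τ h : ℝ) (hξ : |ξ| ≤ 1 / 2) (hη : |η| ≤ 1 / 2) (hτ : |τ| ≤ 1 / 10)
    (P Q : Finset ℤ) (S : Finset (ℤ × ℤ))
    (hP : ∀ l ∈ P, |ξ + l + τ * η| < h) (hQ : ∀ l ∈ Q, |η + l - τ * ξ| < h)
    (hS : ∀ l l' : ℤ, |ξ + l + τ * (η + l')| < h → |η + l' - τ * (ξ + l)| < h → (l, l') ∈ S) :
    (P.card : ℝ) + Q.card ≤ 1 + S.card + (if 1 / 2 - 3 * |τ| ≤ |ξ| ∧ 1 / 2 - 3 * |τ| ≤ |η| then 5 else 0) := by
  have hτ0 := abs_nonneg τ
  have hif : (0 : ℝ) ≤ (if 1 / 2 - 3 * |τ| ≤ |ξ| ∧ 1 / 2 - 3 * |τ| ≤ |η| then 5 else 0) := by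
    split_ifs <;> norm_num
  -- members of P and Q
  have bP : ∀ l ∈ P, |ξ + l| < h + |τ| / 2 := by
    intro l hl
    have h1 := hP l hl
    have h2 : |τ * η| ≤ |τ| / 2 := by rw [abs_mul]; nlinarith
    rw [abs_lt] at h1 ⊢
    rw [abs_le] at h2
    constructor <;> linarith
  have bQ : ∀ l ∈ Q, |η + l| < h + |τ| / 2 := by
    intro l hl
    have h1 := hQ l hl
    have h2 : |τ * ξ| ≤ |τ| / 2 := by rw [abs_mul]; nlinarith
    rw [abs_lt] at h1 ⊢
    rw [abs_le] at h2
    constructor <;> linarith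
  have inP : ∀ l ∈ P, |η| + |τ| * (h + |τ| / 2) < h → (l, (0 : ℤ)) ∈ S := by
    intro l hl hb
    apply hS
    · have := hP l hl
      push_cast; rw [add_zero]; exact this
    · push_cast
      rw [add_zero]
      have h1 := bP l hl
      have h2 : |τ * (ξ + l)| ≤ |τ| * (h + |τ| / 2) := by
        rw [abs_mul]; exact mul_le_mul_of_nonneg_left h1.le hτ0
      have h3 := abs_sub η (τ * (ξ + l))
      linarith
  have inQ : ∀ l ∈ Q, |ξ| + |τ| * (h + |τ| / 2) < h → ((0 : ℤ), l) ∈ S := by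
    intro l hl hb
    apply hS
    · push_cast
      rw [add_zero]
      have h1 := bQ l hl
      have h2 : |τ * (η + l)| ≤ |τ| * (h + |τ| / 2) := by
        rw [abs_mul]; exact mul_le_mul_of_nonneg_left h1.le hτ0
      have h3 := abs_add_le ξ (τ * (η + l))
      linarith
    · have := hQ l hl
      push_cast; rw [add_zero]; exact this
  by_cases cA : 1 < 2 * h ∧ 3 * |τ| ≤ 2 * h - 1
  · obtain ⟨c1, c2⟩ := cA
    have hb : 1 / 2 + |τ| * (h + |τ| / 2) < h := by
      nlinarith [mul_nonneg hτ0 (sub_nonneg.2 c1.le), mul_nonneg hτ0 hτ0]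
    have := card_cross P Q S (fun l hl => inP l hl (by linarith)) (fun l hl => inQ l hl (by linarith))
    have h2 : (P.card : ℝ) + Q.card ≤ 1 + S.card := by exact_mod_cast this
    linarith
  by_cases cB : 2 * h + |τ| ≤ 1
  · have p0 : ∀ l ∈ P, l = 0 := by
      intro l hl
      apply int_zero_of_abs
      have h1 := bP l hl
      rw [abs_lt] at h1 ⊢
      rw [abs_le] at hξ
      constructor <;> linarith
    have q0 : ∀ l ∈ Q, l = 0 := by
      intro l hl
      apply int_zero_of_abs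
      have h1 := bQ l hl
      rw [abs_lt] at h1 ⊢
      rw [abs_le] at hη
      constructor <;> linarith
    have cP : P.card ≤ 1 := by
      rw [Finset.card_le_one]; intro a ha b hb; rw [p0 a ha, p0 b hb]
    have cQ : Q.card ≤ 1 := by
      rw [Finset.card_le_one]; intro a ha b hb; rw [q0 a ha, q0 b hb]
    rcases Finset.eq_empty_or_nonempty P with hPe | ⟨l, hl⟩
    · rw [hPe]
      have : (Q.card : ℝ) ≤ 1 := by exact_mod_cast cQ
      have h2 : (0 : ℝ) ≤ S.card := Nat.cast_nonneg _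
      simp only [Finset.card_empty, Nat.cast_zero]
      linarith
    rcases Finset.eq_empty_or_nonempty Q with hQe | ⟨l', hl'⟩
    · rw [hQe]
      have : (P.card : ℝ) ≤ 1 := by exact_mod_cast cP
      have h2 : (0 : ℝ) ≤ S.card := Nat.cast_nonneg _
      simp only [Finset.card_empty, Nat.cast_zero]
      linarith
    have h0 : ((0 : ℤ), (0 : ℤ)) ∈ S := by
      have e1 := hP l hl
      have e2 := hQ l' hl'
      rw [p0 l hl] at e1
      rw [q0 l' hl'] at e2
      apply hS
      · push_cast at e1 ⊢; simpa using e1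
      · push_cast at e2 ⊢; simpa using e2
    have h1 : 1 ≤ S.card := Finset.card_pos.2 ⟨_, h0⟩
    have h2 : (P.card : ℝ) ≤ 1 := by exact_mod_cast cP
    have h3 : (Q.card : ℝ) ≤ 1 := by exact_mod_cast cQ
    have h4 : (1 : ℝ) ≤ S.card := by exact_mod_cast h1
    linarith
  -- near-unit squares
  have hτp : 0 < |τ| := by
    by_contra hc
    have hτ00 : |τ| = 0 := le_antisymm (not_lt.1 hc) hτ0
    rw [hτ00] at cA cB
    push Not at cA cB
    rcases lt_or_ge 1 (2 * h) with h1 | h1
    · have := cA h1; linarith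
    · linarith
  have hh1 : 2 * h < 1 + 3 * |τ| := by
    by_contra hc
    push Not at hc
    exact cA ⟨by linarith, by linarith⟩
  have hh2 : 1 - |τ| < 2 * h := by
    push Not at cB; linarith
  by_cases cη : |η| < 1 / 2 - 3 * |τ|
  · have hb : |η| + |τ| * (h + |τ| / 2) < h := by nlinarith
    have h1 : P.card ≤ S.card := by
      have e := Finset.card_image_of_injective P (fun (a b : ℤ) (h : (a, (0 : ℤ)) = (b, 0)) => by simpa using h)
      rw [← e]
      apply Finset.card_le_card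
      intro z hz
      rw [Finset.mem_image] at hz
      obtain ⟨l, hl, rfl⟩ := hz
      exact inP l hl hb
    have q0 : ∀ l ∈ Q, l = 0 := by
      intro l hl
      apply int_zero_of_abs
      have h1 := bQ l hl
      rw [abs_lt] at h1 cη ⊢
      constructor <;> linarith
    have cQ : Q.card ≤ 1 := by
      rw [Finset.card_le_one]; intro a ha b hb; rw [q0 a ha, q0 b hb]
    have h2 : (P.card : ℝ) ≤ S.card := by exact_mod_cast h1
    have h3 : (Q.card : ℝ) ≤ 1 := by exact_mod_cast cQ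
    linarith
  by_cases cξ : |ξ| < 1 / 2 - 3 * |τ|
  · have hb : |ξ| + |τ| * (h + |τ| / 2) < h := by nlinarith
    have h1 : Q.card ≤ S.card := by
      have e := Finset.card_image_of_injective Q (fun (a b : ℤ) (h : ((0 : ℤ), a) = (0, b)) => by simpa using h)
      rw [← e]
      apply Finset.card_le_card
      intro z hz
      rw [Finset.mem_image] at hz
      obtain ⟨l, hl, rfl⟩ := hz
      exact inQ l hl hb
    have p0 : ∀ l ∈ P, l = 0 := by
      intro l hl
      apply int_zero_of_abs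
      have h1 := bP l hl
      rw [abs_lt] at h1 cξ ⊢
      constructor <;> linarith
    have cP : P.card ≤ 1 := by
      rw [Finset.card_le_one]; intro a ha b hb; rw [p0 a ha, p0 b hb]
    have h2 : (Q.card : ℝ) ≤ S.card := by exact_mod_cast h1
    have h3 : (P.card : ℝ) ≤ 1 := by exact_mod_cast cP
    linarith
  push Not at cη cξ
  rw [if_pos ⟨cξ, cη⟩]
  have pP : P ⊆ Finset.Icc (-1) 1 := by
    intro l hl
    have h1 := bP l hl
    rw [abs_lt] at h1
    rw [abs_le] at hξ
    have a1 : (l : ℝ) < 2 := by linarith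
    have a2 : (-2 : ℝ) < l := by linarith
    have b1 : l < 2 := by exact_mod_cast a1
    have b2 : -2 < l := by exact_mod_cast a2
    rw [Finset.mem_Icc]; omega
  have pQ : Q ⊆ Finset.Icc (-1) 1 := by
    intro l hl
    have h1 := bQ l hl
    rw [abs_lt] at h1
    rw [abs_le] at hη
    have a1 : (l : ℝ) < 2 := by linarith
    have a2 : (-2 : ℝ) < l := by linarith
    have b1 : l < 2 := by exact_mod_cast a1
    have b2 : -2 < l := by exact_mod_cast a2
    rw [Finset.mem_Icc]; omega
  have h1 : (P.card : ℝ) ≤ 3 := by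
    have := Finset.card_le_card pP
    rw [Int.card_Icc] at this
    exact_mod_cast this
  have h2 : (Q.card : ℝ) ≤ 3 := by
    have := Finset.card_le_card pQ
    rw [Int.card_Icc] at this
    exact_mod_cast this
  have h3 : (0 : ℝ) ≤ S.card := Nat.cast_nonneg _
  linarith

variable {M : ℕ} [NeZero M]

/-- the offset index -/
noncomputable def k0 (M : ℕ) (c : ℝ) : ℤ := ⌈-(1 / 2 - c) * M⌉

/-- position of the grid line `w` relative to `c`, in `[-1/2, 1/2)` -/
noncomputable def rel (M : ℕ) (c : ℝ) (w : ZMod M) : ℝ :=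
  ((w - (k0 M c : ZMod M)).val : ℝ) / M + (k0 M c + (1 / 2 - c) * M) / M - 1 / 2

lemma rho_bd (c : ℝ) : 0 ≤ (k0 M c : ℝ) + (1 / 2 - c) * M ∧ (k0 M c : ℝ) + (1 / 2 - c) * M < 1 := by
  unfold k0
  have h1 := Int.le_ceil (-(1 / 2 - c) * M)
  have h2 := Int.ceil_lt_add_one (-(1 / 2 - c) * M)
  constructor <;> linarith

lemma rel_bd (c : ℝ) (w : ZMod M) : -(1 / 2) ≤ rel M c w ∧ rel M c w < 1 / 2 := by
  have hM : (0 : ℝ) < M := by exact_mod_cast NeZero.pos M
  obtain ⟨r1, r2⟩ := rho_bd (M := M) c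
  unfold rel
  have h1 : (((w - (k0 M c : ZMod M)).val : ℝ)) ≤ M - 1 := by
    have := ZMod.val_lt (w - (k0 M c : ZMod M))
    have h2 : (w - (k0 M c : ZMod M)).val + 1 ≤ M := this
    have h3 : (((w - (k0 M c : ZMod M)).val + 1 : ℕ) : ℝ) ≤ M := by exact_mod_cast h2
    push_cast at h3
    linarith
  have h0 : (0 : ℝ) ≤ ((w - (k0 M c : ZMod M)).val : ℝ) := Nat.cast_nonneg _
  constructor
  · have : 0 ≤ ((w - (k0 M c : ZMod M)).val : ℝ) / M + (k0 M c + (1 / 2 - c) * M) / M := by positivity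
    linarith
  · have : ((w - (k0 M c : ZMod M)).val : ℝ) / M + (k0 M c + (1 / 2 - c) * M) / M < 1 := by
      rw [← add_div, div_lt_one hM]; linarith
    linarith

lemma rel_abs (c : ℝ) (w : ZMod M) : |rel M c w| ≤ 1 / 2 := by
  have := rel_bd c w
  rw [abs_le]; constructor <;> linarith [this.1, this.2]

lemma rel_int (c : ℝ) (w : ZMod M) : ∃ z : ℤ, (w.val : ℝ) / M = c + rel M c w + z := by
  have hM : (M : ℝ) ≠ 0 := by exact_mod_cast (NeZero.ne M)
  have h : (((w - (k0 M c : ZMod M)).val : ℤ) : ZMod M) = ((w.val - k0 M c : ℤ) : ZMod M) := by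
    push_cast
    rw [ZMod.natCast_zmod_val, ZMod.natCast_zmod_val]
  rw [ZMod.intCast_eq_intCast_iff_dvd_sub] at h
  obtain ⟨z, hz⟩ := h
  refine ⟨z, ?_⟩
  have h1 : ((w - (k0 M c : ZMod M)).val : ℝ) = w.val - k0 M c - M * z := by
    have : ((w - (k0 M c : ZMod M)).val : ℤ) = w.val - k0 M c - M * z := by linarith
    exact_mod_cast this
  unfold rel
  rw [h1]
  field_simp
  ring

open Classical in
/-- number of grid lines near the ends of the period -/
lemma corner_count (c τ : ℝ) :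
    (((Finset.univ : Finset (ZMod M)).filter (fun w => 1 / 2 - 3 * |τ| ≤ |rel M c w|)).card : ℝ) ≤ 6 * |τ| * M + 2 := by
  have hM : (0 : ℝ) < M := by exact_mod_cast NeZero.pos M
  have hτ0 := abs_nonneg τ
  set L : ℕ := ⌊3 * |τ| * M⌋₊ with hL
  have hL1 : (L : ℝ) ≤ 3 * |τ| * M := Nat.floor_le (by positivity)
  have hL2 : 3 * |τ| * M < L + 1 := Nat.lt_floor_add_one _
  have hsub : ((Finset.univ : Finset (ZMod M)).filter (fun w => 1 / 2 - 3 * |τ| ≤ |rel M c w|)).image
      (fun w => (w - (k0 M c : ZMod M)).val) ⊆ Finset.range (L + 1) ∪ Finset.Ico (M - (L + 1)) M := by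
    intro k hk
    rw [Finset.mem_image] at hk
    obtain ⟨w, hw, rfl⟩ := hk
    rw [Finset.mem_filter] at hw
    obtain ⟨r1, r2⟩ := rho_bd (M := M) c
    have hv := ZMod.val_lt (w - (k0 M c : ZMod M))
    rw [Finset.mem_union, Finset.mem_range, Finset.mem_Ico]
    have e : rel M c w = ((w - (k0 M c : ZMod M)).val + (k0 M c + (1 / 2 - c) * M)) / M - 1 / 2 := by
      unfold rel; ring
    rcases le_abs.1 hw.2 with h | h
    · right
      refine ⟨?_, hv⟩
      rw [e] at h
      have h2 : 1 - 3 * |τ| ≤ ((w - (k0 M c : ZMod M)).val + (k0 M c + (1 / 2 - c) * M)) / M := by linarith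
      rw [le_div_iff₀ hM] at h2
      have h3 : (M : ℝ) < (w - (k0 M c : ZMod M)).val + (L + 1) + 1 := by linarith
      have h4 : M < (w - (k0 M c : ZMod M)).val + (L + 1) + 1 := by exact_mod_cast h3
      omega
    · left
      rw [e] at h
      have h2 : ((w - (k0 M c : ZMod M)).val + (k0 M c + (1 / 2 - c) * M)) / M ≤ 3 * |τ| := by linarith
      rw [div_le_iff₀ hM] at h2
      have h3 : ((w - (k0 M c : ZMod M)).val : ℝ) < L + 1 := by linarith
      exact_mod_cast h3
  have hinj : Set.InjOn (fun w : ZMod M => (w - (k0 M c : ZMod M)).val)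
      ((Finset.univ : Finset (ZMod M)).filter (fun w => 1 / 2 - 3 * |τ| ≤ |rel M c w|)) := by
    intro a _ b _ hab
    have := ZMod.val_injective M hab
    simpa using this
  have h1 := Finset.card_le_card hsub
  rw [Finset.card_image_of_injOn hinj] at h1
  have h2 := Finset.card_union_le (Finset.range (L + 1)) (Finset.Ico (M - (L + 1)) M)
  rw [Finset.card_range, Nat.card_Ico] at h2
  have h3 : M - (M - (L + 1)) ≤ L + 1 := by omega
  have h4 : ((Finset.univ : Finset (ZMod M)).filter (fun w => 1 / 2 - 3 * |τ| ≤ |rel M c w|)).card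
      ≤ 2 * (L + 1) := by omega
  have h5 : (((Finset.univ : Finset (ZMod M)).filter (fun w => 1 / 2 - 3 * |τ| ≤ |rel M c w|)).card : ℝ)
      ≤ 2 * (L + 1) := by exact_mod_cast h4
  linarith

end Pool.H10.SU
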