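import Pool.Agent.H10.SU.Flow

/-! Two integer valued functions with sum at most one, the first nearly independent of the second variable,
the second nearly independent of the first: one of the means is almost nonpositive. -/

set_option autoImplicit false

namespace Pool.H10.SU

open Finset

variable {M : ℕ}

lemma v4_const_sub (c a b d e : ℝ) : v4 (c - a) (c - b) (c - d) (c - e) = v4 a b d e := by
  unfold v4; ring

lemma T_le4 (u : ZMod M × ZMod M → ℝ) (hu : ∀ z, 0 ≤ u z) (z : ZMod M × ZMod M) (c : ℝ) (h : T u z ≤ c) :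
    u z ≤ 4 * c ∧ u (z + (1, 0)) ≤ 4 * c ∧ u (z + (0, 1)) ≤ 4 * c ∧ u (z + (1, 1)) ≤ 4 * c := by
  unfold T at h
  have h1 := hu z
  have h2 := hu (z + (1, 0))
  have h3 := hu (z + (0, 1))
  have h4 := hu (z + (1, 1))
  refine ⟨?_, ?_, ?_, ?_⟩ <;> linarith

section

variable (f g F K R : ZMod M × ZMod M → ℝ)

/-- the error density -/
def hh (z : ZMod M × ZMod M) : ℝ := |F z| + |K z| + |R z|

/-- active region -/
def Reg (t : ℕ) (z : ZMod M × ZMod M) : Prop :=
  T^[t + 2] (hh F K R) z < 1 / 4 ∧ 0 < T^[t + 1] f z ∧ 0 < T^[t + 1] g z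

noncomputable def Ph (t : ℕ) (z : ZMod M × ZMod M) : ℝ :=
  max (max (T^[t] f z) 0 * max (T^[t] g z) 0 - T^[t + 1] (hh F K R) z) 0

noncomputable def Er (k : ℝ) (t : ℕ) (z : ZMod M × ZMod M) : ℝ :=
  k * va (fun w => T^[t] f w + T^[t] g w) z
    + 1 / (4 * k) * ((T^[t] f (z + (0, 1)) - T^[t] f z) ^ 2 + (T^[t] f (z + (1, 1)) - T^[t] f (z + (1, 0))) ^ 2
      + (T^[t] g (z + (1, 0)) - T^[t] g z) ^ 2 + (T^[t] g (z + (1, 1)) - T^[t] g (z + (0, 1))) ^ 2)

lemma hh_nonneg (z : ZMod M × ZMod M) : 0 ≤ hh F K R z := by unfold hh; positivity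

lemma Ph_nonneg (t : ℕ) (z : ZMod M × ZMod M) : 0 ≤ Ph f g F K R t z := le_max_right _ _

lemma Er_nonneg (k : ℝ) (hk : 0 < k) (t : ℕ) (z : ZMod M × ZMod M) : 0 ≤ Er f g k t z := by
  unfold Er
  have := va_nonneg (fun w => T^[t] f w + T^[t] g w) z
  positivity

open Classical in
lemma step (k : ℝ) (hk0 : 0 < k) (hk1 : k ≤ 1) (hfg : ∀ z, f z + g z ≤ 1) (t : ℕ) (z : ZMod M × ZMod M) :
    Ph f g F K R (t + 1) z ≤
      (Ph f g F K R t z + Ph f g F K R t (z + (1, 0)) + Ph f g F K R t (z + (0, 1)) + Ph f g F K R t (z + (1, 1))) / 4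
      + if Reg f g F K R t z then Er f g k t z else 0 := by
  have n1 := Ph_nonneg f g F K R t z
  have n2 := Ph_nonneg f g F K R t (z + (1, 0))
  have n3 := Ph_nonneg f g F K R t (z + (0, 1))
  have n4 := Ph_nonneg f g F K R t (z + (1, 1))
  have n5 := Er_nonneg f g k hk0 t z
  by_cases hpos : max (T^[t + 1] f z) 0 * max (T^[t + 1] g z) 0 - T^[t + 1 + 1] (hh F K R) z ≤ 0
  · have e : Ph f g F K R (t + 1) z = 0 := by
      unfold Ph; exact max_eq_right hpos
    rw [e]
    have : 0 ≤ (if Reg f g F K R t z then Er f g k t z else 0) := by split_ifs <;> linarith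
    linarith
  · push Not at hpos
    have hh0 := T_iter_nonneg (t + 1 + 1) (hh F K R) (hh_nonneg F K R) z
    have hprod : 0 < max (T^[t + 1] f z) 0 * max (T^[t + 1] g z) 0 := by linarith
    have hf : 0 < T^[t + 1] f z := by
      by_contra hc
      push Not at hc
      rw [max_eq_right hc, zero_mul] at hprod
      exact lt_irrefl _ hprod
    have hg : 0 < T^[t + 1] g z := by
      by_contra hc
      push Not at hc
      rw [max_eq_right hc, mul_zero] at hprod
      exact lt_irrefl _ hprod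
    have hsum : T^[t + 1] f z + T^[t + 1] g z ≤ 1 := by
      have h1 := T_iter_mono (t + 1) (fun z => f z + g z) (fun _ => 1) hfg z
      rw [T_iter_add, T_iter_const] at h1
      exact h1
    have hreg : Reg f g F K R t z := by
      refine ⟨?_, hf, hg⟩
      rw [max_eq_left hf.le, max_eq_left hg.le] at hpos
      show T^[t + 1 + 1] (hh F K R) z < 1 / 4
      nlinarith [sq_nonneg (T^[t + 1] f z - T^[t + 1] g z)]
    rw [if_pos hreg]
    have e : Ph f g F K R (t + 1) z = max (T^[t + 1] f z) 0 * max (T^[t + 1] g z) 0 - T^[t + 1 + 1] (hh F K R) z := by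
      unfold Ph; exact max_eq_left hpos.le
    rw [e]
    have key := key4 (T^[t] f z) (T^[t] f (z + (1, 0))) (T^[t] f (z + (0, 1))) (T^[t] f (z + (1, 1)))
      (T^[t] g z) (T^[t] g (z + (1, 0))) (T^[t] g (z + (0, 1))) (T^[t] g (z + (1, 1))) k hk0 hk1
    have ef : T^[t + 1] f z = (T^[t] f z + T^[t] f (z + (1, 0)) + T^[t] f (z + (0, 1)) + T^[t] f (z + (1, 1))) / 4 := by
      rw [T_iter_succ]; rfl
    have eg : T^[t + 1] g z = (T^[t] g z + T^[t] g (z + (1, 0)) + T^[t] g (z + (0, 1)) + T^[t] g (z + (1, 1))) / 4 := by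
      rw [T_iter_succ]; rfl
    have eh : T^[t + 1 + 1] (hh F K R) z = (T^[t + 1] (hh F K R) z + T^[t + 1] (hh F K R) (z + (1, 0))
        + T^[t + 1] (hh F K R) (z + (0, 1)) + T^[t + 1] (hh F K R) (z + (1, 1))) / 4 := by
      rw [T_iter_succ (t + 1)]; rfl
    rw [ef, eg, eh]
    have m1 : max (T^[t] f z) 0 * max (T^[t] g z) 0 - T^[t + 1] (hh F K R) z ≤ Ph f g F K R t z := le_max_left _ _
    have m2 : max (T^[t] f (z + (1, 0))) 0 * max (T^[t] g (z + (1, 0))) 0 - T^[t + 1] (hh F K R) (z + (1, 0))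
      ≤ Ph f g F K R t (z + (1, 0)) := le_max_left _ _
    have m3 : max (T^[t] f (z + (0, 1))) 0 * max (T^[t] g (z + (0, 1))) 0 - T^[t + 1] (hh F K R) (z + (0, 1))
      ≤ Ph f g F K R t (z + (0, 1)) := le_max_left _ _
    have m4 : max (T^[t] f (z + (1, 1))) 0 * max (T^[t] g (z + (1, 1))) 0 - T^[t + 1] (hh F K R) (z + (1, 1))
      ≤ Ph f g F K R t (z + (1, 1)) := le_max_left _ _
    have eE : Er f g k t z = k * v4 (T^[t] f z + T^[t] g z) (T^[t] f (z + (1, 0)) + T^[t] g (z + (1, 0)))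
        (T^[t] f (z + (0, 1)) + T^[t] g (z + (0, 1))) (T^[t] f (z + (1, 1)) + T^[t] g (z + (1, 1)))
      + 1 / (4 * k) * ((T^[t] f (z + (0, 1)) - T^[t] f z) ^ 2 + (T^[t] f (z + (1, 1)) - T^[t] f (z + (1, 0))) ^ 2
      + (T^[t] g (z + (1, 0)) - T^[t] g z) ^ 2 + (T^[t] g (z + (1, 1)) - T^[t] g (z + (0, 1))) ^ 2) := rfl
    rw [eE]
    linarith

end

variable [NeZero M] (f g F K R : ZMod M × ZMod M → ℝ)

open Classical in
lemma sum_step (k : ℝ) (hk0 : 0 < k) (hk1 : k ≤ 1) (hfg : ∀ z, f z + g z ≤ 1)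
    (h0 : ∀ z, max (f z) 0 * max (g z) 0 = 0) (N : ℕ) :
    ∑ z, Ph f g F K R N z ≤ ∑ t ∈ range N, ∑ z, (if Reg f g F K R t z then Er f g k t z else 0) := by
  induction N with
  | zero =>
    rw [Finset.range_zero, Finset.sum_empty]
    apply Finset.sum_nonpos
    intro z _
    unfold Ph
    apply max_le _ le_rfl
    have := T_iter_nonneg (0 + 1) (hh F K R) (hh_nonneg F K R) z
    have h1 := h0 z
    have : max (T^[0] f z) 0 * max (T^[0] g z) 0 = 0 := h1
    linarith
  | succ N ih =>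
    rw [Finset.sum_range_succ]
    have h1 : ∑ z, Ph f g F K R (N + 1) z ≤ ∑ z, Ph f g F K R N z
        + ∑ z, (if Reg f g F K R N z then Er f g k N z else 0) := by
      rw [← sum_avg (fun z => Ph f g F K R N z), ← Finset.sum_add_distrib]
      exact Finset.sum_le_sum fun z _ => step f g F K R k hk0 hk1 hfg N z
    linarith

omit [NeZero M] in
lemma reg_le (t : ℕ) (z : ZMod M × ZMod M) (h : Reg f g F K R t z) :
    (T^[t + 1] (hh F K R) z ≤ 1 ∧ T^[t + 1] (hh F K R) (z + (1, 0)) ≤ 1 ∧ T^[t + 1] (hh F K R) (z + (0, 1)) ≤ 1) := by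
  have h1 := h.1
  have e : T^[t + 2] (hh F K R) z = T (T^[t + 1] (hh F K R)) z := by rw [T_iter_succ (t + 1)]
  rw [e] at h1
  obtain ⟨a, b, c, -⟩ := T_le4 (T^[t + 1] (hh F K R)) (T_iter_nonneg _ _ (hh_nonneg F K R)) z (1 / 4) h1.le
  norm_num at a b c
  exact ⟨a, b, c⟩

/-- energy of an error term over the active region -/
lemma err_sum (c : ZMod M × ZMod M → ℝ) (hc : ∀ z, |c z| ≤ hh F K R z) (e : ZMod M × ZMod M)
    (he : ∀ t z, Reg f g F K R t z → T^[t + 1] (hh F K R) (z + e) ≤ 1) (N : ℕ) :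
    (open Classical in ∑ t ∈ range N, ∑ z, (if Reg f g F K R t z then va (T^[t] c) (z + e) else 0))
      ≤ 16 * ∑ z, |c z| := by
  classical
  have h1 := trunc_abs c 4 (by norm_num) (fun t w => Reg f g F K R t (w - e)) (fun t w hw => by
    have h2 := he t (w - e) hw
    rw [sub_add_cancel] at h2
    have h3 : T (T^[t] (hh F K R)) w ≤ 1 := by rw [← T_iter_succ]; exact h2
    have h4 := T_le4 (T^[t] (hh F K R)) (T_iter_nonneg _ _ (hh_nonneg F K R)) w 1 h3
    rw [mul_one] at h4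
    have h5 := T_iter_mono t (fun z => |c z|) (hh F K R) hc
    exact ⟨(h5 _).trans h4.1, (h5 _).trans h4.2.1, (h5 _).trans h4.2.2.1, (h5 _).trans h4.2.2.2⟩) N
  have h6 : ∑ t ∈ range N, ∑ z, (if Reg f g F K R t z then va (T^[t] c) (z + e) else 0)
      = ∑ t ∈ range N, ∑ z, (if Reg f g F K R t (z - e) then va (T^[t] c) z else 0) := by
    apply Finset.sum_congr rfl
    intro t _
    rw [← sum_shift (fun z => if Reg f g F K R t (z - e) then va (T^[t] c) z else 0) e]
    apply Finset.sum_congr rfl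
    intro z _
    simp only [add_sub_cancel_right]
  have h7 : ∑ t ∈ range N, ∑ z, (if Reg f g F K R t z then va (T^[t] c) (z + e) else 0) ≤ 16 * ∑ z, |c z| := by
    rw [h6]
    refine le_trans ?_ (h1.trans (le_of_eq (by norm_num)))
    apply le_of_eq
    congr!
  exact h7

open Classical in
lemma E_sum (hfg : ∀ z, f z + g z ≤ 1) (N : ℕ) :
    ∑ t ∈ range N, ∑ z, (if Reg f g F K R t z then va (fun w => T^[t] f w + T^[t] g w) z else 0)
      ≤ 8 * ∑ z, (1 - f z - g z) := by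
  have hE : ∀ t w, T^[t] (fun z => 1 - f z - g z) w = 1 - (T^[t] f w + T^[t] g w) := by
    intro t w
    rw [T_iter_sub t (fun z => 1 - f z) g, T_iter_sub t (fun _ => 1) f, T_iter_const]
    ring
  have h1 := trunc (fun z => 1 - f z - g z) (fun z => by have := hfg z; linarith) 4 (by norm_num)
    (fun t w => Reg f g F K R t w) (fun t w hw => by
      have h3 : T (T^[t] (fun z => 1 - f z - g z)) w ≤ 1 := by
        rw [← T_iter_succ, hE]
        have := hw.2.1
        have := hw.2.2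
        linarith
      have h4 := T_le4 (T^[t] (fun z => 1 - f z - g z)) (T_iter_nonneg _ _ (fun z => by have := hfg z; linarith)) w 1 h3
      rw [mul_one] at h4
      exact h4) N
  have e : ∀ t z, va (T^[t] (fun z => 1 - f z - g z)) z = va (fun w => T^[t] f w + T^[t] g w) z := by
    intro t z
    unfold va
    rw [hE, hE, hE, hE, v4_const_sub]
  simp only [e] at h1
  refine h1.trans (le_of_eq ?_)
  norm_num

theorem flow0 (k : ℝ) (hk0 : 0 < k) (hk1 : k ≤ 1) (hfg : ∀ z, f z + g z ≤ 1)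
    (h0 : ∀ z, max (f z) 0 * max (g z) 0 = 0)
    (r1 : ∀ z, f (z + (0, 1)) - f z = F (z + (1, 0)) - F z)
    (r2 : ∀ z, g (z + (1, 0)) - g z = (K (z + (0, 1)) - K z) + (R (z + (1, 0)) - R z)) (N : ℕ) :
    ∑ z, Ph f g F K R N z ≤ 8 * k * ∑ z, (1 - f z - g z) + 128 / k * ∑ z, hh F K R z := by
  classical
  refine (sum_step f g F K R k hk0 hk1 hfg h0 N).trans ?_
  have cF : ∀ z, |F z| ≤ hh F K R z := fun z => by
    unfold hh; have := abs_nonneg (K z); have := abs_nonneg (R z); linarith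
  have cK : ∀ z, |K z| ≤ hh F K R z := fun z => by
    unfold hh; have := abs_nonneg (F z); have := abs_nonneg (R z); linarith
  have cR : ∀ z, |R z| ≤ hh F K R z := fun z => by
    unfold hh; have := abs_nonneg (F z); have := abs_nonneg (K z); linarith
  have e0 : ∀ t z, Reg f g F K R t z → T^[t + 1] (hh F K R) (z + 0) ≤ 1 := fun t z h => by
    rw [add_zero]; exact (reg_le f g F K R t z h).1
  have e1 : ∀ t z, Reg f g F K R t z → T^[t + 1] (hh F K R) (z + (1, 0)) ≤ 1 := fun t z h =>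
    (reg_le f g F K R t z h).2.1
  have e2 : ∀ t z, Reg f g F K R t z → T^[t + 1] (hh F K R) (z + (0, 1)) ≤ 1 := fun t z h =>
    (reg_le f g F K R t z h).2.2
  have s0 := E_sum f g F K R hfg N
  have s1 := err_sum f g F K R F cF 0 e0 N
  have s2 := err_sum f g F K R F cF (1, 0) e1 N
  have s3 := err_sum f g F K R K cK 0 e0 N
  have s4 := err_sum f g F K R K cK (0, 1) e2 N
  have s5 := err_sum f g F K R R cR 0 e0 N
  have s6 := err_sum f g F K R R cR (0, 1) e2 N
  -- pointwise bound of the error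
  have pt : ∀ t z, Er f g k t z ≤ k * va (fun w => T^[t] f w + T^[t] g w) z
      + 4 / k * (va (T^[t] F) (z + 0) + va (T^[t] F) (z + (1, 0)) + va (T^[t] K) (z + 0) + va (T^[t] K) (z + (0, 1))
        + va (T^[t] R) (z + 0) + va (T^[t] R) (z + (0, 1))) := by
    intro t z
    rw [add_zero]
    have q1 := T_iter_rel1 t f F r1
    have q2 := T_iter_rel2 t g K R r2
    have b1 : (T^[t] f (z + (0, 1)) - T^[t] f z) ^ 2 ≤ 8 * va (T^[t] F) z := by
      rw [q1]; exact v4_ab _ _ _ _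
    have ez : z + (1, 1) = z + (1, 0) + (0, 1) := by ext <;> simp
    have ez' : z + (1, 1) = z + (0, 1) + (1, 0) := by ext <;> simp
    have b2 : (T^[t] f (z + (1, 1)) - T^[t] f (z + (1, 0))) ^ 2 ≤ 8 * va (T^[t] F) (z + (1, 0)) := by
      rw [ez, q1]; exact v4_ab _ _ _ _
    have b3 : (T^[t] g (z + (1, 0)) - T^[t] g z) ^ 2 ≤ 16 * va (T^[t] K) z + 16 * va (T^[t] R) z := by
      rw [q2]
      have c1 : (T^[t] K (z + (0, 1)) - T^[t] K z) ^ 2 ≤ 8 * va (T^[t] K) z := v4_ac _ _ _ _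
      have c2 : (T^[t] R (z + (1, 0)) - T^[t] R z) ^ 2 ≤ 8 * va (T^[t] R) z := v4_ab _ _ _ _
      nlinarith [sq_nonneg ((T^[t] K (z + (0, 1)) - T^[t] K z) - (T^[t] R (z + (1, 0)) - T^[t] R z))]
    have b4 : (T^[t] g (z + (1, 1)) - T^[t] g (z + (0, 1))) ^ 2 ≤
        16 * va (T^[t] K) (z + (0, 1)) + 16 * va (T^[t] R) (z + (0, 1)) := by
      rw [ez', q2]
      have c1 : (T^[t] K (z + (0, 1) + (0, 1)) - T^[t] K (z + (0, 1))) ^ 2 ≤ 8 * va (T^[t] K) (z + (0, 1)) :=
        v4_ac _ _ _ _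
      have c2 : (T^[t] R (z + (0, 1) + (1, 0)) - T^[t] R (z + (0, 1))) ^ 2 ≤ 8 * va (T^[t] R) (z + (0, 1)) :=
        v4_ab _ _ _ _
      nlinarith [sq_nonneg ((T^[t] K (z + (0, 1) + (0, 1)) - T^[t] K (z + (0, 1)))
        - (T^[t] R (z + (0, 1) + (1, 0)) - T^[t] R (z + (0, 1))))]
    have n1 := va_nonneg (T^[t] F) z
    have n2 := va_nonneg (T^[t] F) (z + (1, 0))
    have hk4 : 4 / k = 1 / (4 * k) * 16 := by field_simp; norm_num
    rw [hk4, mul_assoc]
    unfold Er
    have hk5 : 0 ≤ 1 / (4 * k) := by positivity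
    apply add_le_add le_rfl
    apply mul_le_mul_of_nonneg_left _ hk5
    linarith
  have tot : ∑ t ∈ range N, ∑ z, (if Reg f g F K R t z then Er f g k t z else 0) ≤
      k * ∑ t ∈ range N, ∑ z, (if Reg f g F K R t z then va (fun w => T^[t] f w + T^[t] g w) z else 0)
      + 4 / k * (∑ t ∈ range N, ∑ z, (if Reg f g F K R t z then va (T^[t] F) (z + 0) else 0)
        + ∑ t ∈ range N, ∑ z, (if Reg f g F K R t z then va (T^[t] F) (z + (1, 0)) else 0)
        + ∑ t ∈ range N, ∑ z, (if Reg f g F K R t z then va (T^[t] K) (z + 0) else 0)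
        + ∑ t ∈ range N, ∑ z, (if Reg f g F K R t z then va (T^[t] K) (z + (0, 1)) else 0)
        + ∑ t ∈ range N, ∑ z, (if Reg f g F K R t z then va (T^[t] R) (z + 0) else 0)
        + ∑ t ∈ range N, ∑ z, (if Reg f g F K R t z then va (T^[t] R) (z + (0, 1)) else 0)) := by
    simp only [← Finset.sum_add_distrib, Finset.mul_sum]
    apply Finset.sum_le_sum
    intro t _
    apply Finset.sum_le_sum
    intro z _
    split_ifs
    · exact pt t z
    · simp
  refine tot.trans ?_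
  have t1 := mul_le_mul_of_nonneg_left s0 hk0.le
  have hk4 : 0 ≤ 4 / k := by positivity
  have hS : ∑ z, hh F K R z = ∑ z, |F z| + ∑ z, |K z| + ∑ z, |R z| := by
    simp only [hh, Finset.sum_add_distrib]
  have t2 : ∑ t ∈ range N, ∑ z, (if Reg f g F K R t z then va (T^[t] F) (z + 0) else 0)
        + ∑ t ∈ range N, ∑ z, (if Reg f g F K R t z then va (T^[t] F) (z + (1, 0)) else 0)
        + ∑ t ∈ range N, ∑ z, (if Reg f g F K R t z then va (T^[t] K) (z + 0) else 0)
        + ∑ t ∈ range N, ∑ z, (if Reg f g F K R t z then va (T^[t] K) (z + (0, 1)) else 0)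
        + ∑ t ∈ range N, ∑ z, (if Reg f g F K R t z then va (T^[t] R) (z + 0) else 0)
        + ∑ t ∈ range N, ∑ z, (if Reg f g F K R t z then va (T^[t] R) (z + (0, 1)) else 0)
      ≤ 32 * ∑ z, hh F K R z := by
    rw [hS]
    linarith
  have t3 := mul_le_mul_of_nonneg_left t2 hk4
  have e : 4 / k * (32 * ∑ z, hh F K R z) = 128 / k * ∑ z, hh F K R z := by ring
  rw [e] at t3
  have e' : k * (8 * ∑ z, (1 - f z - g z)) = 8 * k * ∑ z, (1 - f z - g z) := by ring
  rw [e'] at t1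
  exact add_le_add t1 t3

/-- the product of the means is small -/
theorem flow1 (k : ℝ) (hk0 : 0 < k) (hk1 : k ≤ 1) (hfg : ∀ z, f z + g z ≤ 1)
    (h0 : ∀ z, max (f z) 0 * max (g z) 0 = 0)
    (r1 : ∀ z, f (z + (0, 1)) - f z = F (z + (1, 0)) - F z)
    (r2 : ∀ z, g (z + (1, 0)) - g z = (K (z + (0, 1)) - K z) + (R (z + (1, 0)) - R z)) :
    max (mean f) 0 * max (mean g) 0 ≤ mean (hh F K R) + 8 * k * (1 - mean f - mean g)
      + 128 / k * mean (hh F K R) := by
  have hM : (0 : ℝ) < (M : ℝ) ^ 2 := by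
    have := NeZero.pos M
    positivity
  set a := max (mean f) 0 with ha
  set b := max (mean g) 0 with hb
  have ha0 : 0 ≤ a := le_max_right _ _
  have hb0 : 0 ≤ b := le_max_right _ _
  apply le_of_forall_pos_le_add
  intro e he
  set δ := e / (a + b + 2) with hδ
  have hδ0 : 0 < δ := by positivity
  obtain ⟨t, ht⟩ := conv3 f g (T (hh F K R)) δ hδ0
  have h1 := flow0 f g F K R k hk0 hk1 hfg h0 r1 r2 t
  have h2 : (M : ℝ) ^ 2 * (a * b - δ * (a + b) - mean (hh F K R) - δ) ≤ ∑ z, Ph f g F K R t z := by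
    have e1 : (M : ℝ) ^ 2 * (a * b - δ * (a + b) - mean (hh F K R) - δ)
        = ∑ _z : ZMod M × ZMod M, (a * b - δ * (a + b) - mean (hh F K R) - δ) := by
      rw [Finset.sum_const, cardG, nsmul_eq_mul]; push_cast; ring
    rw [e1]
    apply Finset.sum_le_sum
    intro z _
    obtain ⟨z1, z2, z3⟩ := ht z
    rw [abs_le] at z1 z2 z3
    have e3 : mean (T (hh F K R)) = mean (hh F K R) := by unfold mean; rw [sum_T]
    rw [e3] at z3
    have e4 : T^[t] (T (hh F K R)) z = T^[t + 1] (hh F K R) z := by rw [Function.iterate_succ_apply]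
    rw [e4] at z3
    have x1 : a - δ ≤ max (T^[t] f z) 0 := by
      rcases le_total (mean f) 0 with h | h
      · rw [ha, max_eq_right h]; have := le_max_right (T^[t] f z) 0; linarith
      · rw [ha, max_eq_left h]; have := le_max_left (T^[t] f z) 0; linarith
    have x2 : b - δ ≤ max (T^[t] g z) 0 := by
      rcases le_total (mean g) 0 with h | h
      · rw [hb, max_eq_right h]; have := le_max_right (T^[t] g z) 0; linarith
      · rw [hb, max_eq_left h]; have := le_max_left (T^[t] g z) 0; linarith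
    have x3 : a * b - δ * (a + b) ≤ max (T^[t] f z) 0 * max (T^[t] g z) 0 := by
      have p1 := le_max_right (T^[t] f z) 0
      have p2 := le_max_right (T^[t] g z) 0
      rcases le_total a δ with h | h
      · nlinarith [mul_nonneg p1 p2]
      rcases le_total b δ with h' | h'
      · nlinarith [mul_nonneg p1 p2]
      nlinarith [mul_le_mul x1 x2 (by linarith) p1, mul_nonneg hδ0.le hδ0.le]
    have x4 : max (T^[t] f z) 0 * max (T^[t] g z) 0 - T^[t + 1] (hh F K R) z ≤ Ph f g F K R t z := le_max_left _ _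
    linarith
  have e5 : ∑ z, (1 - f z - g z) = (M : ℝ) ^ 2 * (1 - mean f - mean g) := by
    unfold mean
    rw [Finset.sum_sub_distrib, Finset.sum_sub_distrib, Finset.sum_const, cardG, nsmul_eq_mul, mul_sub, mul_sub,
      mul_div_cancel₀ _ hM.ne', mul_div_cancel₀ _ hM.ne']
    push_cast
    ring
  have e6 : ∑ z, hh F K R z = (M : ℝ) ^ 2 * mean (hh F K R) := by
    unfold mean; rw [mul_div_cancel₀ _ hM.ne']
  rw [e5, e6] at h1
  have h3 := h2.trans h1
  have e7 : 8 * k * ((M : ℝ) ^ 2 * (1 - mean f - mean g)) + 128 / k * ((M : ℝ) ^ 2 * mean (hh F K R))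
      = (M : ℝ) ^ 2 * (8 * k * (1 - mean f - mean g) + 128 / k * mean (hh F K R)) := by ring
  rw [e7] at h3
  have h4 := le_of_mul_le_mul_left h3 hM
  have h5 : δ * (a + b + 2) = e := by rw [hδ]; field_simp
  nlinarith

end Pool.H10.SU
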