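import Pool.Agent.H10.SU.Point
import Pool.Agent.H10.SU.Weak

/-! Sampling functions of one square. -/

set_option autoImplicit false

namespace Pool.H10.SU

open Finset

variable {M : ℕ} [NeZero M]

open Classical in
/-- number of points of the lattice translate in the set -/
noncomputable def NN (M : ℕ) (Kb : ℕ) (S : Set (ℝ × ℝ)) (z : ZMod M × ZMod M) : ℝ :=
  (((Finset.range Kb ×ˢ Finset.range Kb).filter
    (fun l : ℕ × ℕ => ((z.1.val : ℝ) / M + l.1, (z.2.val : ℝ) / M + l.2) ∈ S)).card : ℝ)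

/-- starting index of a row arc -/
noncomputable def st (M : ℕ) (cx cy h τ : ℝ) (y : ZMod M) : ℤ :=
  ⌈(M * (cx - h) - τ * ((k0 M cy + (1 / 2 - cy) * M) - M / 2)) - ((y - (k0 M cy : ZMod M)).val : ℝ) * τ⌉ + 1

lemma st_eq (cx cy h τ : ℝ) (y : ZMod M) : st M cx cy h τ y = ⌈M * (cx - rel M cy y * τ - h)⌉ + 1 := by
  have hM : (M : ℝ) ≠ 0 := by exact_mod_cast (NeZero.ne M)
  unfold st rel
  congr 2
  field_simp
  ring

lemma st_tv (cx cy h τ : ℝ) :
    ∑ y : ZMod M, |((st M cx cy h τ (y + 1) - st M cx cy h τ y : ℤ) : ℝ)| ≤ 2 * (M * |τ| + 1) := by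
  unfold st
  exact tv _ _ _

/-- integer shifts given by an arc -/
lemma arc_set (cx cy h τ : ℝ) (m : ℕ) (hm : (m : ℝ) + 1 ≤ 2 * h * M ∨ m = 0) (x y : ZMod M) (zx : ℤ)
    (hx : (x.val : ℝ) / M = cx + rel M cx x + zx) :
    ∃ P : Finset ℤ, (P.card : ℝ) = arc (st M cx cy h τ y) m x ∧ ∀ l ∈ P, |rel M cx x + l + τ * rel M cy y| < h := by
  have hM : (0 : ℝ) < M := by exact_mod_cast NeZero.pos M
  have hMi : (M : ℤ) ≠ 0 := by exact_mod_cast (NeZero.ne M)
  set B := (Finset.Ico (st M cx cy h τ y) (st M cx cy h τ y + m)).filter (fun j : ℤ => (j : ZMod M) = x) with hB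
  have hdvd : ∀ j ∈ B, (M : ℤ) ∣ j - x.val := by
    intro j hj
    rw [hB, Finset.mem_filter] at hj
    have h1 : ((x.val : ℤ) : ZMod M) = (j : ZMod M) := by
      rw [hj.2]; push_cast; exact ZMod.natCast_zmod_val x
    rw [ZMod.intCast_eq_intCast_iff_dvd_sub] at h1
    exact h1
  refine ⟨B.image (fun j => (j - x.val) / M + zx), ?_, ?_⟩
  · rw [Finset.card_image_of_injOn]
    · rfl
    · intro a ha b hb hab
      have h1 := Int.ediv_mul_cancel (hdvd a ha)
      have h2 := Int.ediv_mul_cancel (hdvd b hb)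
      simp only at hab
      have h3 : (a - x.val) / (M : ℤ) = (b - x.val) / (M : ℤ) := by linarith
      rw [h3] at h1
      linarith
  · intro l hl
    rw [Finset.mem_image] at hl
    obtain ⟨j, hj, rfl⟩ := hl
    have h1 := Int.ediv_mul_cancel (hdvd j hj)
    have hj2 := hj
    rw [hB, Finset.mem_filter, Finset.mem_Ico, st_eq] at hj2
    obtain ⟨⟨j1, j2⟩, -⟩ := hj2
    have a1 := Int.le_ceil (M * (cx - rel M cy y * τ - h))
    have a2 := Int.ceil_lt_add_one (M * (cx - rel M cy y * τ - h))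
    set c := ⌈M * (cx - rel M cy y * τ - h)⌉ with hc
    have hm' : (m : ℝ) + 1 ≤ 2 * h * M := by
      rcases hm with hm | hm
      · exact hm
      · exfalso; rw [hm] at j2; push_cast at j2; omega
    have b1 : (c : ℝ) + 1 ≤ j := by exact_mod_cast j1
    have b2 : (j : ℝ) + 1 ≤ c + 1 + m := by
      have : j + 1 ≤ c + 1 + m := by omega
      exact_mod_cast this
    have e1 : (j : ℝ) = x.val + ((j - x.val) / (M : ℤ) : ℤ) * M := by
      have : j = x.val + (j - x.val) / (M : ℤ) * M := by linarith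
      exact_mod_cast this
    have hx2 : (x.val : ℝ) = (cx + rel M cx x + zx) * M := by
      rw [← hx]; field_simp
    have e2 : (j : ℝ) = (cx + rel M cx x + zx + ((j - x.val) / (M : ℤ) : ℤ)) * M := by
      rw [e1, hx2]; push_cast; ring
    have e3 : rel M cx x + (((j - x.val) / (M : ℤ) + zx : ℤ) : ℝ) + τ * rel M cy y
        = (j - M * (cx - rel M cy y * τ)) / M := by
      rw [e2]; push_cast; field_simp; ring
    rw [e3, abs_div, abs_of_pos hM, div_lt_iff₀ hM, abs_lt]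
    constructor <;> nlinarith

theorem sample (cx cy h τ : ℝ) (hh : 0 < h) (hτ : |τ| ≤ 1 / 10) (Kb : ℕ) (S : Set (ℝ × ℝ))
    (hS : ∀ X Y : ℝ, |X - cx + τ * (Y - cy)| < h → |Y - cy - τ * (X - cx)| < h → (X, Y) ∈ S)
    (hbox : ∀ p ∈ S, (0 < p.1 ∧ p.1 < Kb) ∧ (0 < p.2 ∧ p.2 < Kb)) :
    ∃ P Q F K C : ZMod M × ZMod M → ℝ,
      (∀ z, ∃ n : ℤ, P z = n) ∧ (∀ z, ∃ n : ℤ, Q z = n) ∧ (∀ z, ∃ n : ℤ, C z = n) ∧ (∀ z, 0 ≤ C z) ∧
      (∀ z, P (z + (0, 1)) - P z = F (z + (1, 0)) - F z) ∧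
      (∀ z, Q (z + (1, 0)) - Q z = K (z + (0, 1)) - K z) ∧
      (∑ z, |F z| ≤ 2 * (M * |τ| + 1) * (M * |1 - 2 * h| + 2)) ∧
      (∑ z, |K z| ≤ 2 * (M * |τ| + 1) * (M * |1 - 2 * h| + 2)) ∧
      (∑ z, C z ≤ 5 * (6 * |τ| * M + 2) ^ 2) ∧
      ((M : ℝ) * (2 * h * M - 2) ≤ ∑ z, P z) ∧ ((M : ℝ) * (2 * h * M - 2) ≤ ∑ z, Q z) ∧
      (∀ z, P z + Q z ≤ 1 + NN M Kb S z + C z) := by
  classical
  have hM : (0 : ℝ) < M := by exact_mod_cast NeZero.pos M
  set m : ℕ := ⌊2 * h * M⌋₊ - 1 with hm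
  have hm1 : (m : ℝ) + 1 ≤ 2 * h * M ∨ m = 0 := by
    rcases Nat.eq_zero_or_pos m with h0 | h0
    · exact Or.inr h0
    · left
      have h1 : m + 1 ≤ ⌊2 * h * M⌋₊ := by omega
      have h2 : ((m + 1 : ℕ) : ℝ) ≤ ⌊2 * h * M⌋₊ := by exact_mod_cast h1
      have h3 := Nat.floor_le (show 0 ≤ 2 * h * M by positivity)
      push_cast at h2
      linarith
  have hm2 : 2 * h * M - 2 ≤ m := by
    have h1 : ⌊2 * h * M⌋₊ ≤ m + 1 := by omega
    have h2 : (⌊2 * h * M⌋₊ : ℝ) ≤ m + 1 := by exact_mod_cast h1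
    have h3 := Nat.lt_floor_add_one (2 * h * M)
    linarith
  have hm3 : (m : ℝ) ≤ 2 * h * M := by
    rcases hm1 with h1 | h1
    · linarith
    · rw [h1]; push_cast; positivity
  have hmM : |(M : ℝ) - m| ≤ M * |1 - 2 * h| + 2 := by
    have e : (M : ℝ) * |1 - 2 * h| = |M * (1 - 2 * h)| := by rw [abs_mul, Nat.abs_cast]
    rw [e]
    have h1 := le_abs_self (M * (1 - 2 * h))
    have h2 := neg_abs_le (M * (1 - 2 * h))
    rw [abs_le]
    constructor <;> linarith
  obtain ⟨F, F1, F2⟩ := arcF (M := M) (st M cx cy h τ) m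
  obtain ⟨K, K1, K2⟩ := arcK (M := M) (st M cy cx h (-τ)) m
  have tF := st_tv (M := M) cx cy h τ
  have tK := st_tv (M := M) cy cx h (-τ)
  rw [abs_neg] at tK
  have hn0 : (0 : ℝ) ≤ |(M : ℝ) - m| := abs_nonneg _
  have hn1 : 0 ≤ 2 * (M * |τ| + 1) := by positivity
  refine ⟨fun z => arc (st M cx cy h τ z.2) m z.1, fun z => arc (st M cy cx h (-τ) z.1) m z.2, F, K,
    fun z => if 1 / 2 - 3 * |τ| ≤ |rel M cx z.1| ∧ 1 / 2 - 3 * |τ| ≤ |rel M cy z.2| then 5 else 0,
    ?_, ?_, ?_, ?_, ?_, ?_, ?_, ?_, ?_, ?_, ?_, ?_⟩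
  · intro z; exact ⟨_, (Int.cast_natCast _).symm⟩
  · intro z; exact ⟨_, (Int.cast_natCast _).symm⟩
  · intro z
    simp only
    split_ifs
    · exact ⟨5, by norm_num⟩
    · exact ⟨0, by norm_num⟩
  · intro z
    simp only
    split_ifs <;> norm_num
  · exact F1
  · exact K1
  · exact F2.trans (mul_le_mul tF hmM hn0 hn1)
  · exact K2.trans (mul_le_mul tK hmM hn0 hn1)
  · -- corners
    have e : ∑ z : ZMod M × ZMod M, (if 1 / 2 - 3 * |τ| ≤ |rel M cx z.1| ∧ 1 / 2 - 3 * |τ| ≤ |rel M cy z.2| then (5 : ℝ) else 0)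
        = 5 * ((((Finset.univ : Finset (ZMod M)).filter (fun w => 1 / 2 - 3 * |τ| ≤ |rel M cx w|)).card : ℝ)
          * (((Finset.univ : Finset (ZMod M)).filter (fun w => 1 / 2 - 3 * |τ| ≤ |rel M cy w|)).card : ℝ)) := by
      rw [← Finset.sum_filter, Finset.sum_const, nsmul_eq_mul]
      have e2 : (Finset.univ.filter (fun z : ZMod M × ZMod M => 1 / 2 - 3 * |τ| ≤ |rel M cx z.1| ∧ 1 / 2 - 3 * |τ| ≤ |rel M cy z.2|))
          = (Finset.univ.filter (fun w : ZMod M => 1 / 2 - 3 * |τ| ≤ |rel M cx w|)) ×ˢ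
            (Finset.univ.filter (fun w : ZMod M => 1 / 2 - 3 * |τ| ≤ |rel M cy w|)) := by
        ext z; simp [Finset.mem_filter, Finset.mem_product]
      rw [e2, Finset.card_product]
      push_cast; ring
    rw [e]
    have c1 := corner_count (M := M) cx τ
    have c2 := corner_count (M := M) cy τ
    have c0 : (0 : ℝ) ≤ 6 * |τ| * M + 2 := by positivity
    have := mul_le_mul c1 c2 (Nat.cast_nonneg _) c0
    nlinarith
  · rw [Fintype.sum_prod_type_right]
    simp only [arc_sum]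
    rw [Finset.sum_const, Finset.card_univ, ZMod.card, nsmul_eq_mul]
    exact mul_le_mul_of_nonneg_left hm2 hM.le
  · rw [Fintype.sum_prod_type]
    simp only [arc_sum]
    rw [Finset.sum_const, Finset.card_univ, ZMod.card, nsmul_eq_mul]
    exact mul_le_mul_of_nonneg_left hm2 hM.le
  · rintro ⟨x, y⟩
    obtain ⟨zx, hzx⟩ := rel_int (M := M) cx x
    obtain ⟨zy, hzy⟩ := rel_int (M := M) cy y
    obtain ⟨P, P1, P2⟩ := arc_set (M := M) cx cy h τ m hm1 x y zx hzx
    obtain ⟨Q, Q1, Q2⟩ := arc_set (M := M) cy cx h (-τ) m hm1 y x zy hzy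
    simp only
    rw [← P1, ← Q1]
    set B := (Finset.range Kb ×ˢ Finset.range Kb).filter
      (fun l : ℕ × ℕ => ((x.val : ℝ) / M + l.1, (y.val : ℝ) / M + l.2) ∈ S) with hB
    have hNN : NN M Kb S (x, y) = B.card := rfl
    rw [hNN]
    have h1 := pw (rel M cx x) (rel M cy y) τ h (rel_abs cx x) (rel_abs cy y) hτ P Q
      (B.image (fun l : ℕ × ℕ => ((l.1 : ℤ) + zx, (l.2 : ℤ) + zy))) P2
      (by intro l hl; have := Q2 l hl; rw [neg_mul, ← sub_eq_add_neg] at this; exact this) ?_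
    · refine h1.trans ?_
      have h2 : ((B.image (fun l : ℕ × ℕ => ((l.1 : ℤ) + zx, (l.2 : ℤ) + zy))).card : ℝ) ≤ B.card := by
        exact_mod_cast Finset.card_image_le
      linarith
    · intro l l' g1 g2
      have hmem := hS (cx + rel M cx x + l) (cy + rel M cy y + l')
        (by have : cx + rel M cx x + l - cx + τ * (cy + rel M cy y + l' - cy)
              = rel M cx x + l + τ * (rel M cy y + l') := by ring
            rw [this]; exact g1)
        (by have : cy + rel M cy y + l' - cy - τ * (cx + rel M cx x + l - cx)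
              = rel M cy y + l' - τ * (rel M cx x + l) := by ring
            rw [this]; exact g2)
      obtain ⟨⟨b1, b2⟩, b3, b4⟩ := hbox _ hmem
      simp only at b1 b2 b3 b4
      have vx0 : (0 : ℝ) ≤ (x.val : ℝ) / M := by positivity
      have vx1 : (x.val : ℝ) / M < 1 := by rw [div_lt_one hM]; exact_mod_cast ZMod.val_lt x
      have vy0 : (0 : ℝ) ≤ (y.val : ℝ) / M := by positivity
      have vy1 : (y.val : ℝ) / M < 1 := by rw [div_lt_one hM]; exact_mod_cast ZMod.val_lt y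
      have ex : cx + rel M cx x + l = (x.val : ℝ) / M + ((l - zx : ℤ) : ℝ) := by rw [hzx]; push_cast; ring
      have ey : cy + rel M cy y + l' = (y.val : ℝ) / M + ((l' - zy : ℤ) : ℝ) := by rw [hzy]; push_cast; ring
      rw [ex] at b1 b2
      rw [ey] at b3 b4
      have i1 : 0 ≤ l - zx := by
        have : (-1 : ℝ) < ((l - zx : ℤ) : ℝ) := by linarith
        have : (-1 : ℤ) < l - zx := by exact_mod_cast this
        omega
      have i2 : l - zx < Kb := by
        have : ((l - zx : ℤ) : ℝ) < Kb := by linarith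
        exact_mod_cast this
      have i3 : 0 ≤ l' - zy := by
        have : (-1 : ℝ) < ((l' - zy : ℤ) : ℝ) := by linarith
        have : (-1 : ℤ) < l' - zy := by exact_mod_cast this
        omega
      have i4 : l' - zy < Kb := by
        have : ((l' - zy : ℤ) : ℝ) < Kb := by linarith
        exact_mod_cast this
      obtain ⟨a, ha⟩ := Int.eq_ofNat_of_zero_le i1
      obtain ⟨b, hb⟩ := Int.eq_ofNat_of_zero_le i3
      rw [Finset.mem_image]
      refine ⟨(a, b), ?_, ?_⟩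
      · rw [hB, Finset.mem_filter, Finset.mem_product, Finset.mem_range, Finset.mem_range]
        refine ⟨⟨by omega, by omega⟩, ?_⟩
        rw [ex, ey, ha, hb] at hmem
        simpa using hmem
      · ext
        · simp only; omega
        · simp only; omega

end Pool.H10.SU
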